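import Pool.Agent.Helper478_Bases.Poly

/-!
# Bilinear sums of degree `k` with the saving from an arbitrary coefficient
-/

set_option autoImplicit false

namespace Pool.Agent.Helper478.Pow

open Finset
open Pool.Agent.H469R2.NK (e norm_e e_add e_zero conj_e)
open Pool.Agent.Y957.VK (Tu J WJ mn dz TT S_VMVT S_DBL)
open Pool.Agent.Helper478.Bases (vmvt dbl WJ_le WJ_triv WJ_nonneg shift)

lemma prod_WJ_le' (s M k V j₀ : ℕ) (β : ℕ → ℝ) (hj : j₀ ∈ Icc 1 k) (hs : 1 ≤ s) (hM : 1 ≤ M)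
    (hV : 1 ≤ V) (h : WJ s M j₀ (β j₀) ≤ 15 * ((s * M ^ j₀ : ℕ) : ℝ) ^ 2 / V) :
    ∏ j ∈ Icc 1 k, WJ s M j (β j) ≤ (15 * (s : ℝ) ^ 2) ^ k * (M : ℝ) ^ (k * (k + 1)) / V := by
  have hV0 : (0 : ℝ) < V := by exact_mod_cast hV
  have h2 : ∏ j ∈ (Icc 1 k).erase j₀, WJ s M j (β j) ≤
      ∏ j ∈ (Icc 1 k).erase j₀, (15 * ((s * M ^ j : ℕ) : ℝ) ^ 2) :=
    prod_le_prod (fun j _ => WJ_nonneg _ _ _ _) fun j _ => WJ_triv s M j _ hs hM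
  have h3 : ∀ k : ℕ, ∏ j ∈ Icc 1 k, (15 * ((s * M ^ j : ℕ) : ℝ) ^ 2) =
      (15 * (s : ℝ) ^ 2) ^ k * (M : ℝ) ^ (k * (k + 1)) := by
    intro k
    induction k with
    | zero => simp
    | succ k ih =>
      rw [prod_Icc_succ_top (by omega), ih]
      push_cast
      rw [mul_pow (s : ℝ), ← pow_mul]
      rw [show (k + 1) * (k + 1 + 1) = k * (k + 1) + (k + 1) * 2 by ring, pow_add, pow_succ]
      ring
  rw [← mul_prod_erase _ _ hj]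
  calc _ ≤ (15 * ((s * M ^ j₀ : ℕ) : ℝ) ^ 2 / V) *
        (∏ j ∈ (Icc 1 k).erase j₀, (15 * ((s * M ^ j : ℕ) : ℝ) ^ 2)) :=
        mul_le_mul h h2 (prod_nonneg fun j _ => WJ_nonneg _ _ _ _) (by positivity)
    _ = (∏ j ∈ Icc 1 k, (15 * ((s * M ^ j : ℕ) : ℝ) ^ 2)) / V := by
        rw [← mul_prod_erase _ (fun j => (15 * ((s * M ^ j : ℕ) : ℝ) ^ 2)) hj]; ring
    _ = _ := by rw [h3]

/-- bilinear sums of degree `k`, saving from the coefficient of degree `j₀` only -/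
theorem TT_le' : ∃ C : ℕ, ∀ (d k V j₀ : ℕ) (L : ℝ) (β : ℕ → ℝ), 1 ≤ d → 2 ≤ k → 1 ≤ V →
    j₀ ∈ Icc 1 k → ∀ m s : ℕ, m = 4 * d * k ^ 2 * (k + 1) → s = k ^ 2 + k * m →
    (∀ m' : ℕ, 1 ≤ m' → m' ≤ V → ∀ P : ℤ,
      (V : ℝ) / (s * (V ^ (2 * d)) ^ j₀ : ℕ) ≤ |m' * β j₀ - P|) →
    4 * C * ((k : ℝ) + m) ^ C + 2 * k * Real.log (15 * (s : ℝ) ^ 2) + 8 * (s : ℝ) ^ 2 * L ≤ Real.log V →
    ‖TT k (V ^ (2 * d)) β‖ ≤ (((V ^ (2 * d) : ℕ) : ℝ)) ^ 2 * Real.exp (-L) := by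
  obtain ⟨C, hC⟩ := vmvt
  refine ⟨C, ?_⟩
  intro d k V j₀ L β hd hk hV hj m s hm hs h hL
  set M : ℕ := V ^ (2 * d) with hM
  have hV0 : (0 : ℝ) < V := by exact_mod_cast hV
  have hV1 : (1 : ℝ) ≤ V := by exact_mod_cast hV
  have hM1 : 1 ≤ M := Nat.one_le_pow _ _ hV
  have hM0 : (0 : ℝ) < M := by exact_mod_cast hM1
  have hVM : V ≤ M := by
    calc V = V ^ 1 := (pow_one V).symm
      _ ≤ V ^ (2 * d) := Nat.pow_le_pow_right hV (by omega)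
  have hk0 : (0 : ℝ) < k := by positivity
  have hs1 : 1 ≤ s := by
    rw [hs]
    have : 1 ≤ k ^ 2 := Nat.one_le_pow _ _ (by omega)
    omega
  have hs0 : (0 : ℝ) < s := by exact_mod_cast hs1
  have h1 := dbl s k M β hs1 (by omega) hM1
  have h2 := hC k m M hk hM1
  rw [← hs] at h2
  have hVU : V ≤ s * M ^ j₀ := by
    have hj1 := (mem_Icc.1 hj).1
    calc V ≤ M := hVM
      _ = M ^ 1 := (pow_one M).symm
      _ ≤ M ^ j₀ := Nat.pow_le_pow_right hM1 hj1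
      _ = 1 * M ^ j₀ := (one_mul _).symm
      _ ≤ s * M ^ j₀ := Nat.mul_le_mul hs1 le_rfl
  have h3 := prod_WJ_le' s M k V j₀ β hj hs1 hM1 hV (WJ_le s M j₀ V (β j₀) hs1 hM1 hV hVU h)
  set y : ℝ := (1 - 1 / (k : ℝ)) ^ m with hy
  have hy0 : 0 ≤ y := by
    rw [hy]
    apply pow_nonneg
    have : (1 : ℝ) / k ≤ 1 := by
      rw [div_le_one hk0]; exact_mod_cast (by omega : 1 ≤ k)
    linarith
  have hy1 : y ≤ 1 / (4 * d * k * (k + 1)) := by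
    have hd0 : (0 : ℝ) < d := by exact_mod_cast hd
    have h4 : 1 - 1 / (k : ℝ) ≤ Real.exp (-(1 / (k : ℝ))) := by
      have := Real.add_one_le_exp (-(1 / (k : ℝ)))
      linarith
    have h5 : y ≤ Real.exp (-(1 / (k : ℝ))) ^ m := by
      rw [hy]
      apply pow_le_pow_left₀ _ h4
      have : (1 : ℝ) / k ≤ 1 := by
        rw [div_le_one hk0]; exact_mod_cast (by omega : 1 ≤ k)
      linarith
    rw [← Real.exp_nat_mul] at h5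
    have h6 : (m : ℝ) * -(1 / (k : ℝ)) = -(4 * d * k * (k + 1)) := by
      rw [hm]; push_cast; field_simp
    rw [h6, Real.exp_neg] at h5
    refine h5.trans ?_
    rw [one_div]
    apply inv_anti₀ (by positivity)
    have := Real.add_one_le_exp (4 * (d : ℝ) * k * (k + 1))
    linarith
  have hMy : (M : ℝ) ^ ((k : ℝ) * (k + 1) * y) ≤ Real.exp (Real.log V / 2) := by
    have hd0 : (0 : ℝ) < d := by exact_mod_cast hd
    have e1 : (M : ℝ) = (V : ℝ) ^ ((2 * d : ℕ) : ℝ) := by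
      rw [hM, Real.rpow_natCast]; push_cast; ring
    rw [e1, ← Real.rpow_mul hV0.le, Real.rpow_def_of_pos hV0, Real.exp_le_exp]
    have hlog : 0 ≤ Real.log V := Real.log_nonneg hV1
    have e2 : ((2 * d : ℕ) : ℝ) * ((k : ℝ) * (k + 1) * y) ≤ 1 / 2 := by
      have : (k : ℝ) * (k + 1) * y ≤ k * (k + 1) * (1 / (4 * d * k * (k + 1))) := by gcongr
      have e3 : (k : ℝ) * (k + 1) * (1 / (4 * d * k * (k + 1))) = 1 / (4 * d) := by field_simp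
      rw [e3] at this
      push_cast
      calc (2 * (d : ℝ)) * ((k : ℝ) * (k + 1) * y) ≤ (2 * d) * (1 / (4 * d)) := by gcongr
        _ = 1 / 2 := by field_simp; norm_num
    calc Real.log V * (((2 * d : ℕ) : ℝ) * ((k : ℝ) * (k + 1) * y)) ≤ Real.log V * (1 / 2) := by gcongr
      _ = Real.log V / 2 := by ring
  set E : ℝ := Real.exp (C * ((k : ℝ) + m) ^ C) with hE
  -- the power of `M` in the mean value
  have h4 : (J s k M : ℝ) ^ 2 * (M : ℝ) ^ (8 * s ^ 2 - 4 * s) * (M : ℝ) ^ (k * (k + 1)) ≤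
      E ^ 2 * ((M : ℝ) ^ (8 * s ^ 2) * (M : ℝ) ^ ((k : ℝ) * (k + 1) * y)) := by
    have h5 : (J s k M : ℝ) ^ 2 ≤ (E * (M : ℝ) ^ (2 * ((k : ℝ) ^ 2 + k * m) - k * (k + 1) / 2 +
        k * (k + 1) / 2 * y)) ^ 2 := pow_le_pow_left₀ (by positivity) h2 2
    have h6 : ((M : ℝ) ^ (2 * ((k : ℝ) ^ 2 + k * m) - k * (k + 1) / 2 + k * (k + 1) / 2 * y)) ^ 2 *
        (M : ℝ) ^ (8 * s ^ 2 - 4 * s) * (M : ℝ) ^ (k * (k + 1)) =
        (M : ℝ) ^ (8 * s ^ 2) * (M : ℝ) ^ ((k : ℝ) * (k + 1) * y) := by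
      rw [← Real.rpow_natCast _ 2, ← Real.rpow_mul hM0.le, ← Real.rpow_natCast _ (8 * s ^ 2 - 4 * s),
        ← Real.rpow_natCast _ (k * (k + 1)), ← Real.rpow_natCast _ (8 * s ^ 2), ← Real.rpow_add hM0,
        ← Real.rpow_add hM0, ← Real.rpow_add hM0]
      congr 1
      have h7 : 4 * s ≤ 8 * s ^ 2 := by nlinarith
      rw [Nat.cast_sub h7]
      have h8 : (s : ℝ) = (k : ℝ) ^ 2 + k * m := by rw [hs]; push_cast; ring
      push_cast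
      rw [h8]
      ring
    calc _ ≤ (E * (M : ℝ) ^ (2 * ((k : ℝ) ^ 2 + k * m) - k * (k + 1) / 2 +
        k * (k + 1) / 2 * y)) ^ 2 * (M : ℝ) ^ (8 * s ^ 2 - 4 * s) * (M : ℝ) ^ (k * (k + 1)) := by gcongr
      _ = _ := by rw [mul_pow, mul_assoc, mul_assoc, ← mul_assoc (_ ^ 2) (_ ^ _) (_ ^ _), h6]
  have h5 : ‖TT k M β‖ ^ (4 * s ^ 2) ≤ (M : ℝ) ^ (8 * s ^ 2) *
      (E ^ 2 * (15 * (s : ℝ) ^ 2) ^ k * (Real.exp (Real.log V / 2) / V)) := by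
    refine h1.trans ?_
    calc _ ≤ (M : ℝ) ^ (8 * s ^ 2 - 4 * s) * (J s k M : ℝ) ^ 2 *
          ((15 * (s : ℝ) ^ 2) ^ k * (M : ℝ) ^ (k * (k + 1)) / V) := by gcongr
      _ = ((J s k M : ℝ) ^ 2 * (M : ℝ) ^ (8 * s ^ 2 - 4 * s) * (M : ℝ) ^ (k * (k + 1))) *
          ((15 * (s : ℝ) ^ 2) ^ k / V) := by ring
      _ ≤ (E ^ 2 * ((M : ℝ) ^ (8 * s ^ 2) * (M : ℝ) ^ ((k : ℝ) * (k + 1) * y))) *
          ((15 * (s : ℝ) ^ 2) ^ k / V) := by gcongr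
      _ ≤ (E ^ 2 * ((M : ℝ) ^ (8 * s ^ 2) * Real.exp (Real.log V / 2))) *
          ((15 * (s : ℝ) ^ 2) ^ k / V) := by gcongr
      _ = _ := by ring
  have h6 : E ^ 2 * (15 * (s : ℝ) ^ 2) ^ k * (Real.exp (Real.log V / 2) / V) ≤
      Real.exp (-L) ^ (4 * s ^ 2) := by
    have e1 : E ^ 2 = Real.exp (2 * (C * ((k : ℝ) + m) ^ C)) := by
      rw [hE, ← Real.exp_nat_mul]; norm_num
    have e2 : (15 * (s : ℝ) ^ 2) ^ k = Real.exp (k * Real.log (15 * (s : ℝ) ^ 2)) := by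
      rw [Real.exp_nat_mul, Real.exp_log (by positivity)]
    have e3 : Real.exp (Real.log V / 2) / V = Real.exp (Real.log V / 2 - Real.log V) := by
      rw [Real.exp_sub, Real.exp_log hV0]
    rw [e1, e2, e3, ← Real.exp_nat_mul, ← Real.exp_add, ← Real.exp_add, Real.exp_le_exp]
    push_cast
    linarith
  have h7 : ‖TT k M β‖ ^ (4 * s ^ 2) ≤ ((M : ℝ) ^ 2 * Real.exp (-L)) ^ (4 * s ^ 2) := by
    rw [mul_pow, ← pow_mul]
    have : 2 * (4 * s ^ 2) = 8 * s ^ 2 := by ring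
    rw [this]
    refine h5.trans ?_
    gcongr
  have h8 : 4 * s ^ 2 ≠ 0 := by positivity
  exact (pow_le_pow_iff_left₀ (norm_nonneg _) (by positivity) h8).1 h7

/-- the inner sums for monomials -/
lemma inner_mono (F : ℝ) (k M x₀ : ℕ) :
    ‖∑ x ∈ Icc 1 M, ∑ y ∈ Icc 1 M, e (F * ((x₀ + x * y : ℕ) : ℝ) ^ k)‖ =
      ‖TT k M (fun j => F * (k.choose j : ℝ) * (x₀ : ℝ) ^ (k - j))‖ := by
  have h1 : ∀ x y : ℕ, e (F * ((x₀ + x * y : ℕ) : ℝ) ^ k) = e (F * (x₀ : ℝ) ^ k) *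
      Complex.exp (2 * Real.pi * Complex.I *
        ((∑ j ∈ Finset.Icc 1 k, (F * (k.choose j : ℝ) * (x₀ : ℝ) ^ (k - j)) *
          ((x : ℝ) * y) ^ j : ℝ) : ℂ)) := by
    intro x y
    have h2 : F * ((x₀ + x * y : ℕ) : ℝ) ^ k = F * (x₀ : ℝ) ^ k +
        ∑ j ∈ Finset.Icc 1 k, (F * (k.choose j : ℝ) * (x₀ : ℝ) ^ (k - j)) * ((x : ℝ) * y) ^ j := by
      push_cast
      rw [add_comm (x₀ : ℝ), add_pow, Finset.mul_sum, Finset.range_eq_Ico,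
        Finset.sum_eq_sum_Ico_succ_bot (by omega)]
      congr 1
      · simp
      · refine sum_congr rfl fun j _ => ?_
        ring
    rw [h2, e_add]
    congr 1
    unfold Pool.Agent.H469R2.NK.e
    congr 1
    push_cast
    ring
  simp_rw [h1, ← mul_sum]
  rw [norm_mul, norm_e, one_mul]
  rfl

/-- **monomials**, saving from the coefficient of degree `j₀` -/
theorem mono_TT : ∃ C : ℕ, ∀ (d k V j₀ N R : ℕ) (L F : ℝ), 1 ≤ d → 2 ≤ k → 1 ≤ V →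
    j₀ ∈ Icc 1 k → ∀ m s : ℕ, m = 4 * d * k ^ 2 * (k + 1) → s = k ^ 2 + k * m →
    (∀ m' : ℕ, 1 ≤ m' → m' ≤ V → ∀ x₀ : ℕ, N < x₀ → x₀ ≤ N + R → ∀ P : ℤ,
      (V : ℝ) / (s * (V ^ (2 * d)) ^ j₀ : ℕ) ≤ |m' * (F * (k.choose j₀ : ℝ) * (x₀ : ℝ) ^ (k - j₀)) - P|) →
    4 * C * ((k : ℝ) + m) ^ C + 2 * k * Real.log (15 * (s : ℝ) ^ 2) + 8 * (s : ℝ) ^ 2 * L ≤ Real.log V →
    ‖∑ n ∈ Ioc 0 R, e (F * ((N + n : ℕ) : ℝ) ^ k)‖ ≤
      R * Real.exp (-L) + 2 * (((V ^ (2 * d) : ℕ) : ℝ)) ^ 2 := by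
  obtain ⟨C, hC⟩ := TT_le'
  refine ⟨C, ?_⟩
  intro d k V j₀ N R L F hd hk hV hj m s hm hs h hL
  set M : ℕ := V ^ (2 * d) with hM
  have hM1 : 1 ≤ M := Nat.one_le_pow _ _ hV
  have hM0 : (0 : ℝ) < M := by exact_mod_cast hM1
  refine (shift (fun n => e (F * ((N + n : ℕ) : ℝ) ^ k)) (fun n => (norm_e _).le) R M hM1).trans ?_
  refine add_le_add ?_ le_rfl
  have h1 : ∀ n ∈ Ioc 0 R, ‖∑ x ∈ Icc 1 M, ∑ y ∈ Icc 1 M,
      e (F * ((N + (n + x * y) : ℕ) : ℝ) ^ k)‖ ≤ (M : ℝ) ^ 2 * Real.exp (-L) := by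
    intro n hn
    rw [mem_Ioc] at hn
    have h2 : ∀ x y : ℕ, N + (n + x * y) = (N + n) + x * y := fun x y => by ring
    simp_rw [h2]
    rw [inner_mono F k M (N + n)]
    refine hC d k V j₀ L _ hd hk hV hj m s hm hs ?_ hL
    intro m' h3 h4 P
    exact h m' h3 h4 (N + n) (by omega) (by omega) P
  have h2 := sum_le_sum h1
  rw [sum_const, Nat.card_Ioc, Nat.sub_zero, nsmul_eq_mul] at h2
  calc _ ≤ 1 / (M : ℝ) ^ 2 * (R * ((M : ℝ) ^ 2 * Real.exp (-L))) := by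
        apply mul_le_mul_of_nonneg_left h2 (by positivity)
    _ = R * Real.exp (-L) := by field_simp

end Pool.Agent.Helper478.Pow
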