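import Pool.Agent.Helper478_Pow.Sec
import Pool.Agent.Helper478_Pow.TT
import Pool.Agent.Helper478_Bases.Bd
import Pool.Agent.Helper478_Surds.Range

/-!
# Exponential sums with monomial phases of all sizes, uniform in the degree
-/

set_option autoImplicit false

namespace Pool.Agent.Helper478.Pow

open Finset Filter
open Pool.Agent.H469R2.NK (e norm_e e_add e_zero conj_e)
open Pool.Agent.Helper478.Bases (cond geom)
open Pool.Agent.Helper478.Surds (ev_pow)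

/-- degree one -/
lemma mono_one (N : ℕ) (F : ℝ) (hF : 0 < F) (hF2 : F ≤ 1 / 2) :
    ‖∑ n ∈ Ioc 0 N, e (F * ((N + n : ℕ) : ℝ) ^ 1)‖ ≤ 2 / F := by
  have h2 : ∑ n ∈ Ioc 0 N, e (F * ((N + n : ℕ) : ℝ) ^ 1) =
      ∑ n ∈ range N, e (F * (N + 1) + n * F) := by
    rw [show Ioc 0 N = Ico 1 (N + 1) from rfl, sum_Ico_eq_sum_range]
    refine sum_congr (by congr 1) fun n _ => ?_
    congr 1
    push_cast
    ring
  rw [h2]
  refine geom F F hF ?_ _ N
  intro P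
  rcases eq_or_ne P 0 with h | h
  · rw [h, Int.cast_zero, sub_zero, abs_of_pos hF]
  · have h3 : (1 : ℝ) ≤ |(P : ℝ)| := by exact_mod_cast Int.one_le_abs h
    have h4 := abs_sub_abs_le_abs_sub (P : ℝ) F
    rw [abs_sub_comm, abs_of_pos hF] at h4
    linarith

/-- the distance to the nearest integer of the multiples of the coefficients -/
lemma far (F : ℝ) (N k j₀ V m' x₀ : ℕ) (T : ℝ) (hk : j₀ ≤ k) (hF : 0 < F) (hN : 1 ≤ N)
    (hx : N < x₀) (hx2 : x₀ ≤ N + N) (hm1 : 1 ≤ m') (hm2 : m' ≤ V)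
    (hT1 : T ≤ F * (N : ℝ) ^ (k - j₀)) (hT2 : T ≤ 1 / 2)
    (hV : V * (4 ^ k * (F * (N : ℝ) ^ (k - j₀))) ≤ 1 / 2) (P : ℤ) :
    T ≤ |m' * (F * (k.choose j₀ : ℝ) * (x₀ : ℝ) ^ (k - j₀)) - P| := by
  have hN0 : (0 : ℝ) < N := by exact_mod_cast hN
  have hm1' : (1 : ℝ) ≤ m' := by exact_mod_cast hm1
  have hm2' : (m' : ℝ) ≤ V := by exact_mod_cast hm2
  have hxN : (N : ℝ) ≤ x₀ := by exact_mod_cast hx.le
  have hx2N : (x₀ : ℝ) ≤ 2 * N := by
    have : (x₀ : ℝ) ≤ ((N + N : ℕ) : ℝ) := by exact_mod_cast hx2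
    push_cast at this
    linarith
  have hc1 : (1 : ℝ) ≤ k.choose j₀ := by
    have : 1 ≤ k.choose j₀ := Nat.choose_pos hk
    exact_mod_cast this
  have hc2 : (k.choose j₀ : ℝ) ≤ 2 ^ k := by
    exact_mod_cast Nat.choose_le_two_pow k j₀
  set β : ℝ := F * (k.choose j₀ : ℝ) * (x₀ : ℝ) ^ (k - j₀) with hβ
  have hlow : F * (N : ℝ) ^ (k - j₀) ≤ β := by
    rw [hβ]
    calc F * (N : ℝ) ^ (k - j₀) = F * 1 * (N : ℝ) ^ (k - j₀) := by ring
      _ ≤ F * (k.choose j₀ : ℝ) * (x₀ : ℝ) ^ (k - j₀) := by gcongr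
  have hup : β ≤ 4 ^ k * (F * (N : ℝ) ^ (k - j₀)) := by
    rw [hβ]
    calc F * (k.choose j₀ : ℝ) * (x₀ : ℝ) ^ (k - j₀) ≤ F * 2 ^ k * (2 * N) ^ (k - j₀) := by gcongr
      _ = F * 2 ^ k * (2 ^ (k - j₀) * (N : ℝ) ^ (k - j₀)) := by rw [mul_pow]
      _ ≤ F * 2 ^ k * (2 ^ k * (N : ℝ) ^ (k - j₀)) := by
          gcongr
          · norm_num
          · omega
      _ = 4 ^ k * (F * (N : ℝ) ^ (k - j₀)) := by
          rw [show (4 : ℝ) = 2 * 2 by norm_num, mul_pow]; ring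
  have hβ0 : 0 < β := lt_of_lt_of_le (by positivity) hlow
  have h1 : m' * β ≤ 1 / 2 := by
    refine le_trans ?_ hV
    gcongr
  have h0 : β ≤ m' * β := by nlinarith
  rcases eq_or_ne P 0 with h | h
  · rw [h, Int.cast_zero, sub_zero, abs_of_pos (by positivity)]
    linarith
  · have h3 : (1 : ℝ) ≤ |(P : ℝ)| := by exact_mod_cast Int.one_le_abs h
    have h4 := abs_sub_abs_le_abs_sub (P : ℝ) (m' * β)
    rw [abs_sub_comm, abs_of_pos (by positivity : 0 < m' * β)] at h4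
    linarith

lemma exp_half (t : ℝ) (ht : t ≤ -1) : Real.exp t ≤ 1 / 2 := by
  calc Real.exp t ≤ Real.exp (-1) := Real.exp_le_exp.2 ht
    _ ≤ 1 / 2 := by
        rw [Real.exp_neg, inv_eq_one_div]
        apply one_div_le_one_div_of_le (by norm_num)
        have := Real.exp_one_gt_d9; linarith

lemma four_le_exp : (4 : ℝ) ≤ Real.exp 2 := by
  have h3 : Real.exp 2 = Real.exp 1 * Real.exp 1 := by rw [← Real.exp_add]; norm_num
  have h4 := Real.exp_one_gt_d9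
  rw [h3]; nlinarith

lemma four_pow_le (k : ℕ) (g : ℝ) (h : (k : ℝ) ≤ g) : (4 : ℝ) ^ k ≤ Real.exp (2 * g) := by
  calc (4 : ℝ) ^ k ≤ (Real.exp 2) ^ k := pow_le_pow_left₀ (by norm_num) four_le_exp _
    _ = Real.exp (k * 2) := by rw [← Real.exp_nat_mul]
    _ ≤ Real.exp (2 * g) := Real.exp_le_exp.2 (by linarith)

lemma size_s (d k m s : ℕ) (g : ℝ) (hd : 1 ≤ d) (hk : 1 ≤ k) (hm : m = 4 * d * k ^ 2 * (k + 1))
    (hs : s = k ^ 2 + k * m) (hg : (k : ℝ) ≤ g) : (s : ℝ) ≤ 9 * d * g ^ 4 := by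
  have h4 : s ≤ 9 * d * k ^ 4 := by
    have hm1 : m ≤ 8 * d * k ^ 3 := by
      rw [hm]
      calc 4 * d * k ^ 2 * (k + 1) ≤ 4 * d * k ^ 2 * (k + k) := by gcongr
        _ = 8 * d * k ^ 3 := by ring
    have hkm : k + m ≤ 9 * d * k ^ 3 := by
      calc k + m ≤ k ^ 3 + 8 * d * k ^ 3 := by
            apply add_le_add _ hm1
            calc k = k ^ 1 := (pow_one k).symm
              _ ≤ k ^ 3 := Nat.pow_le_pow_right hk (by omega)
        _ ≤ d * k ^ 3 + 8 * d * k ^ 3 := by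
            apply add_le_add _ le_rfl
            exact Nat.le_mul_of_pos_left _ hd
        _ = 9 * d * k ^ 3 := by ring
    calc s = k * (k + m) := by rw [hs]; ring
      _ ≤ k * (9 * d * k ^ 3) := Nat.mul_le_mul le_rfl hkm
      _ = 9 * d * k ^ 4 := by ring
  have h5 : (s : ℝ) ≤ 9 * d * (k : ℝ) ^ 4 := by exact_mod_cast h4
  refine h5.trans ?_
  gcongr

/-- **monomials of all sizes** -/
theorem mono_bd : ∃ γ : ℝ, 0 < γ ∧ γ ≤ 1 / 100 ∧ ∀ δ : ℝ, 0 < δ → δ < 1 → ∃ N₀ : ℕ, ∀ N : ℕ, N₀ ≤ N →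
    ∀ k : ℕ, 1 ≤ k → (k : ℝ) ≤ (Real.log N) ^ γ → ∀ F : ℝ, (N : ℝ) ^ (δ * k) ≤ F * (N : ℝ) ^ k →
      F * (N : ℝ) ^ k ≤ (N : ℝ) ^ ((1 - δ) * k) →
      ‖∑ n ∈ Ioc 0 N, e (F * ((N + n : ℕ) : ℝ) ^ k)‖ ≤
        N * Real.exp (-(2 * (Real.log N) ^ (1 - 9 * γ))) := by
  obtain ⟨C, hC⟩ := mono_TT
  obtain ⟨γ, hγ⟩ : ∃ γ : ℝ, γ = 1 / (3 * (C : ℝ) + 100) := ⟨_, rfl⟩
  have hC0 : (0 : ℝ) ≤ C := Nat.cast_nonneg _
  have hγ0 : 0 < γ := by rw [hγ]; positivity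
  have hγ1 : γ ≤ 1 / 100 := by
    rw [hγ]
    apply one_div_le_one_div_of_le (by norm_num)
    linarith
  have hγC : γ * (3 * (C : ℝ) + 9) < 1 := by
    rw [hγ, one_div, inv_mul_lt_iff₀ (by positivity)]
    linarith
  refine ⟨γ, hγ0, hγ1, ?_⟩
  intro δ hδ0 hδ1
  obtain ⟨d, hd⟩ : ∃ d : ℕ, d = max 4 ⌈1 / δ⌉₊ := ⟨_, rfl⟩
  have hd4 : 4 ≤ d := by rw [hd]; exact le_max_left _ _
  have hdδ : 1 / δ ≤ d := by
    refine (Nat.le_ceil _).trans ?_
    rw [hd]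
    exact_mod_cast le_max_right _ _
  have hd0 : (0 : ℝ) < d := by exact_mod_cast (by omega : 0 < d)
  have hd4' : (4 : ℝ) ≤ d := by exact_mod_cast hd4
  obtain ⟨c, hc⟩ : ∃ c : ℝ, c = 1 / (5 * (d : ℝ)) := ⟨_, rfl⟩
  have hc0 : 0 < c := by rw [hc]; positivity
  have hc1 : c ≤ 1 / 20 := by
    rw [hc]
    apply one_div_le_one_div_of_le (by norm_num)
    linarith
  have hcd : 5 * ((d : ℝ) * c) = 1 := by rw [hc]; field_simp
  have hcδ : 2 * c ≤ δ := by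
    rw [div_le_iff₀ hδ0] at hdδ
    nlinarith
  obtain ⟨η, hη⟩ : ∃ η : ℝ, η = min δ (1 / 2) := ⟨_, rfl⟩
  have hη0 : 0 < η := by rw [hη]; exact lt_min hδ0 (by norm_num)
  have hηδ : η ≤ δ := by rw [hη]; exact min_le_left _ _
  have hη2 : η ≤ 1 / 2 := by rw [hη]; exact min_le_right _ _
  obtain ⟨B, hB⟩ : ∃ B : ℕ, B = 4 * C * (9 * d) ^ C + 4374 * d ^ 2 := ⟨_, rfl⟩
  have hB0 : (0 : ℝ) ≤ B := Nat.cast_nonneg _
  have hK0 : 0 < 50 * (1 + 2 / η) := by positivity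
  -- eventual inequalities
  have ev1 : ∀ᶠ y : ℝ in atTop, (4 / c) * y ^ γ ≤ y ^ (1 : ℝ) := ev_pow _ _ _ (by linarith)
  have ev2 : ∀ᶠ y : ℝ in atTop, (200 * (d : ℝ)) * y ^ γ ≤ y ^ (1 : ℝ) := ev_pow _ _ _ (by linarith)
  have ev3 : ∀ᶠ y : ℝ in atTop, (4 / c * B) * y ^ (γ * (3 * (C : ℝ) + 9)) ≤ y ^ (1 : ℝ) :=
    ev_pow _ _ _ hγC
  have ev4 : ∀ᶠ y : ℝ in atTop, (4 / c * (1944 * (d : ℝ) ^ 2)) * y ^ (1 - γ) ≤ y ^ (1 : ℝ) :=
    ev_pow _ _ _ (by linarith)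
  have ev5 : ∀ᶠ y : ℝ in atTop, 20 * y ^ (1 - 9 * γ) ≤ y ^ (1 : ℝ) := ev_pow _ _ _ (by linarith)
  have ev6 : ∀ᶠ y : ℝ in atTop, (48 / η) * y ^ (1 - 9 * γ) ≤ y ^ (1 : ℝ) := ev_pow _ _ _ (by linarith)
  have ev7 : ∀ᶠ y : ℝ in atTop, (48 / η) * y ^ γ ≤ y ^ (1 : ℝ) := ev_pow _ _ _ (by linarith)
  have ev8 : ∀ᶠ y : ℝ in atTop, 12 / η * |Real.log (50 * (1 + 2 / η))| ≤ y := eventually_ge_atTop _
  have ev9 : ∀ᶠ y : ℝ in atTop, 4 / c ≤ y := eventually_ge_atTop _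
  have ev10 : ∀ᶠ y : ℝ in atTop, 4 / δ ≤ y := eventually_ge_atTop _
  have hlog : Tendsto (fun N : ℕ => Real.log N) atTop atTop :=
    Real.tendsto_log_atTop.comp tendsto_natCast_atTop_atTop
  have hev := hlog.eventually (((((ev1.and ev2).and (ev3.and ev4)).and ((ev5.and ev6).and
    (ev7.and ev8))).and (ev9.and ev10)).and (eventually_ge_atTop 20))
  obtain ⟨N₀, hN₀⟩ := eventually_atTop.1 (hev.and (eventually_ge_atTop 2))
  refine ⟨N₀, ?_⟩
  intro N hN k hk1 hky F hF1 hF2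
  obtain ⟨⟨⟨⟨⟨⟨q1, q2⟩, q3, q4⟩, ⟨q5, q6⟩, q7, q8⟩, q9, q10⟩, q11⟩, q12⟩ := hN₀ N hN
  obtain ⟨y, hy⟩ : ∃ y : ℝ, y = Real.log N := ⟨_, rfl⟩
  rw [← hy] at q1 q2 q3 q4 q5 q6 q7 q8 q9 q10 q11 hky ⊢
  have hy0 : 0 < y := by linarith
  have hy1 : 1 ≤ y := by linarith
  have hN1' : 1 ≤ N := by omega
  have hN1 : (1 : ℝ) ≤ N := by exact_mod_cast hN1'
  have hN0 : (0 : ℝ) < N := by linarith
  have hpow : ∀ t : ℝ, (N : ℝ) ^ t = Real.exp (y * t) := by
    intro t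
    rw [Real.rpow_def_of_pos hN0, hy]
  have hNe : (N : ℝ) = Real.exp y := by rw [hy, Real.exp_log hN0]
  rw [Real.rpow_one] at q1 q2 q3 q4 q5 q6 q7
  obtain ⟨Y, hY⟩ : ∃ Y : ℝ, Y = y ^ (1 - 9 * γ) := ⟨_, rfl⟩
  rw [← hY] at q5 q6 ⊢
  have hY1 : 1 ≤ Y := by
    rw [hY]
    exact Real.one_le_rpow hy1 (by linarith)
  obtain ⟨g, hg⟩ : ∃ g : ℝ, g = y ^ γ := ⟨_, rfl⟩
  rw [← hg] at q1 q2 q7 hky
  have hg1 : 1 ≤ g := by
    rw [hg]
    exact Real.one_le_rpow hy1 (by linarith)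
  have hk0 : (1 : ℝ) ≤ k := by exact_mod_cast hk1
  -- useful forms
  have r1 : 4 * g ≤ c * y := by
    have := mul_le_mul_of_nonneg_left q1 hc0.le
    have e1 : c * (4 / c * g) = 4 * g := by field_simp
    linarith
  have r2 : 4 ≤ c * y := by linarith
  have r5 : 2 * Y + 2 ≤ y / 5 := by linarith
  have r6 : 12 * Y ≤ η * y / 4 := by
    have := mul_le_mul_of_nonneg_left q6 hη0.le
    have e1 : η * (48 / η * Y) = 48 * Y := by field_simp
    linarith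
  have r7 : 12 * g ≤ η * y / 4 := by
    have := mul_le_mul_of_nonneg_left q7 hη0.le
    have e1 : η * (48 / η * g) = 48 * g := by field_simp
    linarith
  have r8 : 3 * |Real.log (50 * (1 + 2 / η))| ≤ η * y / 4 := by
    have := mul_le_mul_of_nonneg_left q8 hη0.le
    have e1 : η * (12 / η * |Real.log (50 * (1 + 2 / η))|) = 12 * |Real.log (50 * (1 + 2 / η))| := by
      field_simp
    linarith
  have hNk0 : 0 < (N : ℝ) ^ k := by positivity
  have hF : 0 < F := by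
    have h3 : 0 < F * (N : ℝ) ^ k := lt_of_lt_of_le (Real.rpow_pos_of_pos hN0 _) hF1
    exact pos_of_mul_pos_left h3 (by positivity)
  obtain ⟨κ, hκ⟩ : ∃ κ : ℝ, F * (N : ℝ) ^ k = Real.exp (y * κ) := by
    refine ⟨Real.log (F * (N : ℝ) ^ k) / y, ?_⟩
    rw [mul_div_cancel₀ _ hy0.ne', Real.exp_log (by positivity)]
  have hκ1 : δ * k ≤ κ := by
    rw [hκ, hpow, Real.exp_le_exp] at hF1
    exact le_of_mul_le_mul_left hF1 hy0
  have hκ2 : κ ≤ (1 - δ) * k := by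
    rw [hκ, hpow, Real.exp_le_exp] at hF2
    exact le_of_mul_le_mul_left hF2 hy0
  have hδk : δ ≤ δ * k := le_mul_of_one_le_right hδ0.le hk0
  have hκδ : δ ≤ κ := hδk.trans hκ1
  rcases Nat.lt_or_ge k 2 with hk2 | hk2
  · -- degree one
    have hk : k = 1 := by omega
    subst hk
    rw [Nat.cast_one, mul_one] at hκ1 hκ2
    have hFe : F = Real.exp (y * κ - y) := by
      rw [Real.exp_sub, ← hκ, ← hNe, pow_one]; field_simp
    have hF2' : F ≤ 1 / 2 := by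
      rw [hFe]
      have h1 : y * κ - y ≤ -1 := by
        have h2 : 4 ≤ δ * y := by
          have := mul_le_mul_of_nonneg_left q10 hδ0.le
          have e1 : δ * (4 / δ) = 4 := by field_simp
          linarith
        have h3 := mul_le_mul_of_nonneg_left hκ2 hy0.le
        linarith
      exact exp_half _ h1
    refine (mono_one N F hF hF2').trans ?_
    rw [hFe, div_le_iff₀ (Real.exp_pos _), hNe, ← Real.exp_add, ← Real.exp_add]
    have h1 : 1 ≤ y + -(2 * Y) + (y * κ - y) := by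
      have h2 := mul_le_mul_of_nonneg_left (hηδ.trans hκδ) hy0.le
      linarith
    calc (2 : ℝ) ≤ Real.exp 1 := by have := Real.exp_one_gt_d9; linarith
      _ ≤ _ := Real.exp_le_exp.2 h1
  rcases le_or_gt κ (3 / 2) with hκs | hκl
  · -- small size
    have h1 := mono_small η hη0 (by linarith) N k hN1' hk2 F (by
      rw [hκ, hpow, Real.exp_le_exp]
      exact mul_le_mul_of_nonneg_left (by linarith) hy0.le) (by
      rw [hκ, hpow, Real.exp_le_exp]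
      exact mul_le_mul_of_nonneg_left (by linarith) hy0.le)
    refine h1.trans ?_
    have h4 := four_pow_le k g hky
    have h5 : 50 * (1 + 2 / η) = Real.exp (Real.log (50 * (1 + 2 / η))) := (Real.exp_log hK0).symm
    calc (50 * (1 + 2 / η) * 4 ^ k) * (N : ℝ) ^ (1 - η / 4) ≤
          (Real.exp (Real.log (50 * (1 + 2 / η))) * Real.exp (2 * g)) * Real.exp (y * (1 - η / 4)) := by
          rw [← h5, hpow]
          gcongr
      _ = Real.exp (Real.log (50 * (1 + 2 / η)) + 2 * g + y * (1 - η / 4)) := by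
          rw [← Real.exp_add, ← Real.exp_add]
      _ ≤ Real.exp (y + -(2 * Y)) := by
          apply Real.exp_le_exp.2
          have h6 := le_abs_self (Real.log (50 * (1 + 2 / η)))
          linarith
      _ = N * Real.exp (-(2 * Y)) := by rw [Real.exp_add, ← hNe]
  -- large size
  obtain ⟨j₀, hj₀⟩ : ∃ j₀ : ℕ, j₀ = ⌈κ + 2 * c⌉₊ := ⟨_, rfl⟩
  have hκc0 : 0 < κ + 2 * c := by linarith
  have hj1 : κ + 2 * c ≤ j₀ := by rw [hj₀]; exact Nat.le_ceil _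
  have hj2 : (j₀ : ℝ) < κ + 2 * c + 1 := by rw [hj₀]; exact Nat.ceil_lt_add_one hκc0.le
  have hj3 : 2 ≤ j₀ := by
    have h1 : (1 : ℝ) < j₀ := by linarith
    have h2 : 1 < j₀ := by exact_mod_cast h1
    omega
  have hjk : j₀ ≤ k := by
    rw [hj₀]
    apply Nat.ceil_le.2
    linarith
  obtain ⟨V, hV⟩ : ∃ V : ℕ, V = ⌊Real.exp (c * y)⌋₊ := ⟨_, rfl⟩
  have hVle : (V : ℝ) ≤ Real.exp (c * y) := by
    rw [hV]; exact Nat.floor_le (Real.exp_pos _).le
  have hE4 : 4 ≤ Real.exp (c * y) := by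
    have := Real.add_one_le_exp (c * y)
    linarith
  have hVge : Real.exp (c * y) / 2 ≤ V := by
    have := Nat.lt_floor_add_one (Real.exp (c * y))
    rw [← hV] at this
    linarith
  have hV2 : (2 : ℝ) ≤ V := by linarith
  have hV1 : 1 ≤ V := by
    have : (1 : ℝ) ≤ V := by linarith
    exact_mod_cast this
  have hV0 : (0 : ℝ) < V := by linarith
  have hlogV : c * y - 1 ≤ Real.log V := by
    calc c * y - 1 ≤ c * y - Real.log 2 := by
          have := Real.log_two_lt_d9; linarith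
      _ = Real.log (Real.exp (c * y) / 2) := by
          rw [Real.log_div (Real.exp_pos _).ne' (by norm_num), Real.log_exp]
      _ ≤ Real.log V := Real.log_le_log (by positivity) hVge
  have hlogV2 : c * y / 2 ≤ Real.log V := by linarith
  obtain ⟨m, hm⟩ : ∃ m, m = 4 * d * k ^ 2 * (k + 1) := ⟨_, rfl⟩
  obtain ⟨s, hs⟩ : ∃ s, s = k ^ 2 + k * m := ⟨_, rfl⟩
  have hs1 : 1 ≤ s := by
    rw [hs]; have : 1 ≤ k ^ 2 := Nat.one_le_pow _ _ (by omega)
    omega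
  have hs0 : (0 : ℝ) < s := by exact_mod_cast hs1
  have hs1' : (1 : ℝ) ≤ s := by exact_mod_cast hs1
  -- the size of the coefficients
  have hcoef : F * (N : ℝ) ^ (k - j₀) = Real.exp (y * κ - y * j₀) := by
    rw [Real.exp_sub, ← hκ]
    have h1 : (N : ℝ) ^ k = (N : ℝ) ^ (k - j₀) * (N : ℝ) ^ j₀ := by
      rw [← pow_add]; congr 1; omega
    have h2 : Real.exp (y * j₀) = (N : ℝ) ^ j₀ := by
      rw [hNe, ← Real.exp_nat_mul, mul_comm]
    rw [h1, h2]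
    have : (N : ℝ) ^ j₀ ≠ 0 := by positivity
    field_simp
  have hcoef2 : Real.exp (y * κ - y * j₀) ≤ Real.exp (-(2 * c * y)) := by
    apply Real.exp_le_exp.2
    have := mul_le_mul_of_nonneg_left hj1 hy0.le
    linarith
  have h4k := four_pow_le k g hky
  have hhalf := exp_half
  have hVc : V * (4 ^ k * (F * (N : ℝ) ^ (k - j₀))) ≤ 1 / 2 := by
    rw [hcoef]
    calc (V : ℝ) * (4 ^ k * Real.exp (y * κ - y * j₀)) ≤
          Real.exp (c * y) * (Real.exp (2 * g) * Real.exp (-(2 * c * y))) := by gcongr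
      _ = Real.exp (c * y + (2 * g + -(2 * c * y))) := by rw [← Real.exp_add, ← Real.exp_add]
      _ ≤ 1 / 2 := hhalf _ (by linarith)
  have hT : (V : ℝ) / (s * (V ^ (2 * d)) ^ j₀ : ℕ) ≤ Real.exp (y * κ - y * j₀) := by
    have h1 : (V : ℝ) / (s * (V ^ (2 * d)) ^ j₀ : ℕ) ≤ V / (V : ℝ) ^ (2 * d * j₀) := by
      apply div_le_div_of_nonneg_left hV0.le (by positivity)
      push_cast
      rw [← pow_mul]
      exact le_mul_of_one_le_left (by positivity) hs1'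
    refine h1.trans ?_
    rw [div_le_iff₀ (by positivity)]
    have h2 : (V : ℝ) ^ (2 * d * j₀) = Real.exp ((2 * d * j₀ : ℕ) * Real.log V) := by
      rw [Real.exp_nat_mul, Real.exp_log hV0]
    rw [h2, ← Real.exp_add]
    refine hVle.trans (Real.exp_le_exp.2 ?_)
    have h3 : ((2 * d * j₀ : ℕ) : ℝ) * (c * y - 1) ≤ (2 * d * j₀ : ℕ) * Real.log V := by gcongr
    have h4 : ((2 * d * j₀ : ℕ) : ℝ) * (c * y - 1) = 2 / 5 * j₀ * y - 2 * d * j₀ := by
      push_cast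
      have : (d : ℝ) * c = 1 / 5 := by linarith
      calc 2 * (d : ℝ) * j₀ * (c * y - 1) = 2 * (d * c) * j₀ * y - 2 * d * j₀ := by ring
        _ = _ := by rw [this]; ring
    have h5 : 2 * (d : ℝ) * j₀ ≤ y / 100 := by
      have : (j₀ : ℝ) ≤ g := by
        have : (j₀ : ℝ) ≤ k := by exact_mod_cast hjk
        linarith
      have h6 : 2 * (d : ℝ) * j₀ ≤ 2 * d * g := by gcongr
      linarith
    have h6 : (j₀ : ℝ) - κ + c + 1 / 100 ≤ 2 / 5 * j₀ := by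
      rcases Nat.lt_or_ge j₀ 3 with h7 | h7
      · have h8 : j₀ = 2 := by omega
        rw [h8]
        push_cast
        linarith
      · have h8 : (3 : ℝ) ≤ j₀ := by exact_mod_cast h7
        linarith
    have h7 := mul_le_mul_of_nonneg_right h6 hy0.le
    linarith
  have hcondV : 4 * C * ((k : ℝ) + m) ^ C + 2 * k * Real.log (15 * (s : ℝ) ^ 2) +
      8 * (s : ℝ) ^ 2 * (3 * Y) ≤ Real.log V := by
    have h1 := cond C d k k m s (by omega) hk2 le_rfl hm hs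
    rw [← hB] at h1
    have h2 : (0 : ℝ) ≤ 8 * (s : ℝ) ^ 2 * ((k : ℝ) + 2) := by positivity
    have h3 : (B : ℝ) * (k : ℝ) ^ (3 * C + 9) ≤ c * y / 4 := by
      have h4 : (k : ℝ) ^ (3 * C + 9) ≤ y ^ (γ * (3 * (C : ℝ) + 9)) := by
        calc (k : ℝ) ^ (3 * C + 9) ≤ g ^ (3 * C + 9) := pow_le_pow_left₀ (by linarith) hky _
          _ = y ^ (γ * (3 * (C : ℝ) + 9)) := by
              rw [hg, ← Real.rpow_natCast, ← Real.rpow_mul hy0.le]
              push_cast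
              rfl
      have h5 := mul_le_mul_of_nonneg_left q3 hc0.le
      have h6 : c * (4 / c * B * y ^ (γ * (3 * (C : ℝ) + 9))) = 4 * (B * y ^ (γ * (3 * (C : ℝ) + 9))) := by
        field_simp
      have h7 : (B : ℝ) * (k : ℝ) ^ (3 * C + 9) ≤ B * y ^ (γ * (3 * (C : ℝ) + 9)) := by gcongr
      linarith
    have hs2 := size_s d k m s g (by omega) (by omega) hm hs hky
    have h4 : 8 * (s : ℝ) ^ 2 * (3 * Y) ≤ 1944 * d ^ 2 * y ^ (1 - γ) := by
      have h5 : (s : ℝ) ^ 2 ≤ 81 * d ^ 2 * g ^ 8 := by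
        calc (s : ℝ) ^ 2 ≤ (9 * d * g ^ 4) ^ 2 := pow_le_pow_left₀ hs0.le hs2 2
          _ = 81 * d ^ 2 * g ^ 8 := by ring
      have h6 : g ^ 8 * Y = y ^ (1 - γ) := by
        rw [hg, hY, ← Real.rpow_natCast, ← Real.rpow_mul hy0.le, ← Real.rpow_add hy0]
        congr 1
        push_cast
        ring
      calc 8 * (s : ℝ) ^ 2 * (3 * Y) ≤ 8 * (81 * d ^ 2 * g ^ 8) * (3 * Y) := by gcongr
        _ = 1944 * d ^ 2 * (g ^ 8 * Y) := by ring
        _ = _ := by rw [h6]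
    have h5 : 1944 * (d : ℝ) ^ 2 * y ^ (1 - γ) ≤ c * y / 4 := by
      have h6 := mul_le_mul_of_nonneg_left q4 hc0.le
      have h7 : c * (4 / c * (1944 * (d : ℝ) ^ 2) * y ^ (1 - γ)) =
          4 * (1944 * (d : ℝ) ^ 2 * y ^ (1 - γ)) := by field_simp
      linarith
    linarith
  have hmain := hC d k V j₀ N N (3 * Y) F (by omega) hk2 hV1 (by rw [mem_Icc]; omega) m s hm hs (by
    intro m' hm1 hm2 x₀ hx1 hx2 P
    refine far F N k j₀ V m' x₀ _ hjk hF hN1' hx1 hx2 hm1 hm2 ?_ ?_ hVc P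
    · rw [hcoef]; exact hT
    · exact hT.trans (hcoef2.trans (hhalf _ (by linarith)))) hcondV
  refine hmain.trans ?_
  have h1 : (N : ℝ) * Real.exp (-(3 * Y)) ≤ N * Real.exp (-(2 * Y)) / 2 := by
    have h2 : Real.exp (-(3 * Y)) = Real.exp (-(2 * Y)) * Real.exp (-Y) := by
      rw [← Real.exp_add]; congr 1; ring
    have h3 := hhalf (-Y) (by linarith)
    rw [h2]
    have h4 : 0 < (N : ℝ) * Real.exp (-(2 * Y)) := by positivity
    calc (N : ℝ) * (Real.exp (-(2 * Y)) * Real.exp (-Y)) = (N * Real.exp (-(2 * Y))) * Real.exp (-Y) := by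
          ring
      _ ≤ (N * Real.exp (-(2 * Y))) * (1 / 2) := by gcongr
      _ = _ := by ring
  have h2 : 2 * (((V ^ (2 * d) : ℕ) : ℝ)) ^ 2 ≤ N * Real.exp (-(2 * Y)) / 2 := by
    have h3 : (((V ^ (2 * d) : ℕ) : ℝ)) ^ 2 ≤ Real.exp (4 / 5 * y) := by
      push_cast
      rw [← pow_mul]
      calc (V : ℝ) ^ (2 * d * 2) ≤ (Real.exp (c * y)) ^ (2 * d * 2) := pow_le_pow_left₀ hV0.le hVle _
        _ = Real.exp (4 / 5 * y) := by
            rw [← Real.exp_nat_mul]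
            congr 1
            push_cast
            have : (d : ℝ) * c = 1 / 5 := by linarith
            calc 2 * (d : ℝ) * 2 * (c * y) = 4 * (d * c) * y := by ring
              _ = _ := by rw [this]; ring
    have h4 : 4 * Real.exp (4 / 5 * y) ≤ N * Real.exp (-(2 * Y)) := by
      have h5 := four_le_exp
      calc 4 * Real.exp (4 / 5 * y) ≤ Real.exp 2 * Real.exp (4 / 5 * y) := by gcongr
        _ = Real.exp (2 + 4 / 5 * y) := by rw [← Real.exp_add]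
        _ ≤ Real.exp (y + -(2 * Y)) := Real.exp_le_exp.2 (by linarith)
        _ = N * Real.exp (-(2 * Y)) := by rw [Real.exp_add, ← hNe]
    linarith
  linarith

end Pool.Agent.Helper478.Pow
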