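import Pool.Agent.Helper478_Pow.Exp
import Pool.Agent.Helper478_Joint.ET

/-!
# The digits of powers, for almost all bases
-/

set_option autoImplicit false

namespace Pool.Agent.Helper478.Pow

open Finset Filter
open Pool.Agent.H469R2.NK (e norm_e e_add e_zero conj_e)
open Pool.Agent.Helper478.Surds (ev_pow norm_sum_abs)
open Pool.Agent.Helper478.Joint (weyl_box)

lemma card_filter_split (g : ℕ → Prop) [DecidablePred g] (a b c : ℕ) (h1 : a ≤ b) (h2 : b ≤ c) :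
    ((Ioc a c).filter g).card = ((Ioc a b).filter g).card + ((Ioc b c).filter g).card := by
  rw [← Ioc_union_Ioc_eq_Ioc h1 h2, filter_union, card_union_of_disjoint]
  apply disjoint_filter_filter
  rw [Finset.disjoint_left]
  intro x hx hy
  rw [mem_Ioc] at hx hy
  omega

lemma triv_window (g : ℕ → Prop) [DecidablePred g] (a b : ℕ) (h : a ≤ b) (t : ℝ) (ht0 : 0 ≤ t)
    (ht1 : t ≤ 1) : |(((Ioc a b).filter g).card : ℝ) - ((b : ℝ) - a) * t| ≤ (b : ℝ) - a := by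
  have h1 : (((Ioc a b).filter g).card : ℝ) ≤ (b : ℝ) - a := by
    have h2 : ((Ioc a b).filter g).card ≤ b - a := by
      refine (card_filter_le _ _).trans ?_
      rw [Nat.card_Ioc]
    rw [← Nat.cast_sub h]
    exact_mod_cast h2
  have h2 : (0 : ℝ) ≤ (((Ioc a b).filter g).card : ℝ) := Nat.cast_nonneg _
  have h3 : (0 : ℝ) ≤ (b : ℝ) - a := h2.trans h1
  have h4 : ((b : ℝ) - a) * t ≤ (b : ℝ) - a := mul_le_of_le_one_right h3 ht1
  have h5 : 0 ≤ ((b : ℝ) - a) * t := mul_nonneg h3 ht0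
  rw [abs_le]
  constructor <;> linarith

/-- from long windows in the middle to all windows -/
lemma all_windows (g : ℕ → Prop) [DecidablePred g] (a b M : ℕ) (t ε : ℝ) (hM : 1 ≤ M) (ht0 : 0 ≤ t)
    (ht1 : t ≤ 1) (hε : 0 ≤ ε)
    (h : ∀ u v : ℕ, a ≤ u → v ≤ b → u + M ≤ v →
      |(((Ioc u v).filter g).card : ℝ) - ((v : ℝ) - u) * t| ≤ ε * ((v : ℝ) - u)) (u v : ℕ) (huv : u ≤ v) :
    |(((Ioc u v).filter g).card : ℝ) - ((v : ℝ) - u) * t| ≤
      a + ((v - b : ℕ) : ℝ) + M + ε * ((v : ℝ) - u) := by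
  obtain ⟨u', hu'⟩ : ∃ u', u' = min v (max u a) := ⟨_, rfl⟩
  obtain ⟨v', hv'⟩ : ∃ v', v' = max u' (min v b) := ⟨_, rfl⟩
  have h1 : u ≤ u' := by omega
  have h2 : u' ≤ v' := by omega
  have h3 : v' ≤ v := by omega
  have s1 := card_filter_split g u u' v h1 (h2.trans h3)
  have s2 := card_filter_split g u' v' v h2 h3
  have t1 := triv_window g u u' h1 t ht0 ht1
  have t3 := triv_window g v' v h3 t ht0 ht1
  have e1 : (u' : ℝ) - u ≤ a := by
    have : u' ≤ u + a := by omega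
    have : (u' : ℝ) ≤ u + a := by exact_mod_cast this
    linarith
  have e3 : (v : ℝ) - v' ≤ ((v - b : ℕ) : ℝ) := by
    have : v ≤ v' + (v - b) := by omega
    have : (v : ℝ) ≤ v' + ((v - b : ℕ) : ℝ) := by exact_mod_cast this
    linarith
  have hu'v' : (u' : ℝ) ≤ v' := by exact_mod_cast h2
  have hlen : (v' : ℝ) - u' ≤ (v : ℝ) - u := by
    have a1 : (u : ℝ) ≤ u' := by exact_mod_cast h1
    have a2 : (v' : ℝ) ≤ v := by exact_mod_cast h3
    linarith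
  have t2 : |(((Ioc u' v').filter g).card : ℝ) - ((v' : ℝ) - u') * t| ≤ M + ε * ((v : ℝ) - u) := by
    rcases Nat.lt_or_ge v' (u' + M) with hlt | hge
    · have a1 := triv_window g u' v' h2 t ht0 ht1
      have a2 : (v' : ℝ) - u' ≤ M := by
        have : (v' : ℝ) ≤ u' + M := by exact_mod_cast hlt.le
        linarith
      have a3 : 0 ≤ ε * ((v : ℝ) - u) := mul_nonneg hε (by linarith)
      linarith
    · have a1 := h u' v' (by omega) (by omega) hge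
      have a2 : ε * ((v' : ℝ) - u') ≤ ε * ((v : ℝ) - u) := mul_le_mul_of_nonneg_left hlen hε
      have a3 : (0 : ℝ) ≤ M := Nat.cast_nonneg _
      linarith
  have hsum : (((Ioc u v).filter g).card : ℝ) - ((v : ℝ) - u) * t =
      ((((Ioc u u').filter g).card : ℝ) - ((u' : ℝ) - u) * t) +
      ((((Ioc u' v').filter g).card : ℝ) - ((v' : ℝ) - u') * t) +
      ((((Ioc v' v).filter g).card : ℝ) - ((v : ℝ) - v') * t) := by
    rw [s1, s2]; push_cast; ring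
  rw [hsum]
  refine (abs_add_le _ _).trans ?_
  refine (add_le_add (abs_add_le _ _) le_rfl).trans ?_
  linarith

/-- the criterion of Weyl in one dimension, for windows -/
lemma weyl_win (ε : ℝ) (hε : 0 < ε) : ∃ K : ℕ, ∃ ε' : ℝ, 0 < ε' ∧ ∀ (ν : ℕ → ℝ) (u v : ℕ), u ≤ v →
    (∀ h : ℕ, 1 ≤ h → h ≤ K → ‖∑ i ∈ Icc 1 (v - u), e ((h : ℝ) * ν (u + i))‖ ≤ ε' * ((v : ℝ) - u)) →
    ∀ p r : ℝ, 0 ≤ p → p ≤ r → r ≤ 1 →
    |(((Ioc u v).filter fun i => p ≤ Int.fract (ν i) ∧ Int.fract (ν i) < r).card : ℝ) -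
      ((v : ℝ) - u) * (r - p)| ≤ ε * ((v : ℝ) - u) := by
  obtain ⟨K, ε', hε', hbox⟩ := weyl_box 1 ε hε
  refine ⟨K, ε', hε', ?_⟩
  intro ν u v huv h p r hp hpr hr
  have hcard : (((Ioc u v).card : ℕ) : ℝ) = (v : ℝ) - u := by
    rw [Nat.card_Ioc, Nat.cast_sub huv]
  have h1 := hbox ℕ (Ioc u v) (fun i _ => ν i) (by
    intro Z hZ hZK
    have hZ0 : Z 0 ≠ 0 := by
      intro h0
      apply hZ
      funext j
      rw [Subsingleton.elim j 0]
      exact h0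
    have e1 : ∀ i : ℕ, ∑ j : Fin 1, (Z j : ℝ) * ν i = (Z 0 : ℝ) * ν i := by
      intro i; simp
    simp_rw [e1]
    rw [norm_sum_abs]
    have h2 : |Z 0| = (((Z 0).natAbs : ℕ) : ℤ) := Int.abs_eq_natAbs _
    have h3 : |((Z 0 : ℤ) : ℝ)| = (((Z 0).natAbs : ℕ) : ℝ) := by
      rw [← Int.cast_abs, h2]; rfl
    rw [h3, hcard]
    have h4 := h (Z 0).natAbs (by omega) (by have := hZK 0; omega)
    have h5 : ∑ n ∈ Ioc u v, e ((((Z 0).natAbs : ℕ) : ℝ) * ν n) =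
        ∑ i ∈ Icc 1 (v - u), e ((((Z 0).natAbs : ℕ) : ℝ) * ν (u + i)) := by
      rw [show Icc 1 (v - u) = Ioc 0 (v - u) from rfl]
      have h6 : Ioc u v = (Ioc 0 (v - u)).map (addLeftEmbedding u) := by
        rw [map_add_left_Ioc]; congr 1; omega
      rw [h6, sum_map]
      rfl
    rw [h5]
    exact h4) (fun _ => p) (fun _ => r) (fun _ => ⟨hp, hpr, hr⟩)
  rw [hcard] at h1
  simp only [univ_unique, Fin.default_eq_zero, prod_singleton, forall_const] at h1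
  exact h1

/-- **all windows of digits of powers** -/
theorem win : ∃ γ : ℝ, 0 < γ ∧ γ ≤ 1 / 100 ∧ ∀ ε : ℝ, 0 < ε → ε ≤ 1 →
    ∃ N₀ : ℕ, ∀ N : ℕ, N₀ ≤ N → ∃ T : Finset ℕ,
      (T.card : ℝ) ≤ N * Real.exp (-√(Real.log N)) ∧ ∀ n ∈ Ioc 0 N, n ∉ T → ∀ k q : ℕ,
        1 ≤ k → (k : ℝ) ≤ (Real.log N) ^ γ → 2 ≤ q → Real.log q ≤ (Real.log N) ^ γ →
        1 ≤ ε * (k * Real.log ((N + n : ℕ) : ℝ) / Real.log q) ∧
        ∀ u v : ℕ, u ≤ v → (q : ℝ) ^ v ≤ q * ((N + n : ℕ) : ℝ) ^ k → ∀ p r : ℝ, 0 ≤ p → p ≤ r → r ≤ 1 →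
          |(((Ioc u v).filter fun i => p ≤ Int.fract (((N + n : ℕ) : ℝ) ^ k / (q : ℝ) ^ i) ∧
            Int.fract (((N + n : ℕ) : ℝ) ^ k / (q : ℝ) ^ i) < r).card : ℝ) -
            ((v : ℝ) - u) * (r - p)| ≤ ε * (k * Real.log ((N + n : ℕ) : ℝ) / Real.log q) := by
  obtain ⟨γ, hγ0, hγ1, hexp⟩ := pow_exp
  refine ⟨γ, hγ0, hγ1, ?_⟩
  intro ε hε0 hε1
  obtain ⟨K, ε', hε', hweyl⟩ := weyl_win (ε / 4) (by positivity)
  obtain ⟨η, hη⟩ : ∃ η : ℝ, η = min (ε' / 2) 1 := ⟨_, rfl⟩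
  have hη0 : 0 < η := by rw [hη]; exact lt_min (by positivity) one_pos
  have hη1 : η ≤ 1 := by rw [hη]; exact min_le_right _ _
  have hη2 : 2 * η ≤ ε' := by
    have : η ≤ ε' / 2 := by rw [hη]; exact min_le_left _ _
    linarith
  obtain ⟨δ, hδ⟩ : ∃ δ : ℝ, δ = ε / 40 := ⟨_, rfl⟩
  have hδ0 : 0 < δ := by rw [hδ]; positivity
  have hδ1 : δ < 1 := by rw [hδ]; linarith
  obtain ⟨N₁, hN₁⟩ := hexp δ hδ0 hδ1 η hη0 hη1 K
  have ev1 : ∀ᶠ y : ℝ in atTop, (4 / δ) * y ^ (1 - 9 * γ) ≤ y ^ (1 - γ) := ev_pow _ _ _ (by linarith)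
  have ev2 : ∀ᶠ y : ℝ in atTop, (4 / δ) * y ^ γ ≤ y ^ (1 - γ) := ev_pow _ _ _ (by linarith)
  have ev3 : ∀ᶠ y : ℝ in atTop, (40 / δ) * y ^ (0 : ℝ) ≤ y ^ (1 - γ) := ev_pow _ _ _ (by linarith)
  have hlog : Tendsto (fun N : ℕ => Real.log N) atTop atTop :=
    Real.tendsto_log_atTop.comp tendsto_natCast_atTop_atTop
  have hev := hlog.eventually ((ev1.and ev2).and (ev3.and (eventually_ge_atTop 20)))
  obtain ⟨N₀, hN₀⟩ := eventually_atTop.1 (hev.and (eventually_ge_atTop (max N₁ 2)))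
  refine ⟨N₀, ?_⟩
  intro N hN
  obtain ⟨⟨⟨q1, q2⟩, q3, q11⟩, q12⟩ := hN₀ N hN
  have hN2 : 2 ≤ N := (le_max_right _ _).trans q12
  have hNN₁ : N₁ ≤ N := (le_max_left _ _).trans q12
  obtain ⟨T, hTc, hT⟩ := hN₁ N hNN₁
  refine ⟨T, hTc, ?_⟩
  intro n hn hnT k q hk1 hk2 hq1 hq2
  obtain ⟨y, hy⟩ : ∃ y : ℝ, y = Real.log N := ⟨_, rfl⟩
  rw [← hy] at q1 q2 q3 q11 hk2 hq2
  have hy0 : 0 < y := by linarith
  have hy1 : 1 ≤ y := by linarith
  have hN1' : 1 ≤ N := by omega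
  have hN1 : (1 : ℝ) ≤ N := by exact_mod_cast hN1'
  have hN0 : (0 : ℝ) < N := by linarith
  have hq0 : (0 : ℝ) < q := by exact_mod_cast (by omega : 0 < q)
  have hlq : 1 / 2 ≤ Real.log q := by
    have h1 : Real.log 2 ≤ Real.log q := Real.log_le_log (by norm_num) (by exact_mod_cast hq1)
    have := Real.log_two_gt_d9
    linarith
  have hlq2 : Real.log 2 ≤ Real.log q := Real.log_le_log (by norm_num) (by exact_mod_cast hq1)
  have hlq0 : 0 < Real.log q := by linarith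
  have hk1' : (1 : ℝ) ≤ k := by exact_mod_cast hk1
  rw [mem_Ioc] at hn
  rw [Real.rpow_zero, mul_one] at q3
  obtain ⟨Y, hY⟩ : ∃ Y : ℝ, Y = y ^ (1 - 9 * γ) := ⟨_, rfl⟩
  obtain ⟨g, hg⟩ : ∃ g : ℝ, g = y ^ γ := ⟨_, rfl⟩
  obtain ⟨R, hR⟩ : ∃ R : ℝ, R = y ^ (1 - γ) := ⟨_, rfl⟩
  have hY0 : 0 ≤ Y := by rw [hY]; positivity
  have hg1 : 1 ≤ g := by
    rw [hg]
    exact Real.one_le_rpow hy1 hγ0.le
  have hgR : R * g = y := by
    rw [hR, hg, ← Real.rpow_add hy0, sub_add_cancel, Real.rpow_one]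
  rw [← hY, ← hR] at q1
  rw [← hg, ← hR] at q2
  rw [← hR] at q3
  rw [← hg] at hk2 hq2
  have r1 : 4 * Y ≤ δ * R := by
    have := mul_le_mul_of_nonneg_left q1 hδ0.le
    have e1 : δ * (4 / δ * Y) = 4 * Y := by field_simp
    linarith
  have r2 : 4 * g ≤ δ * R := by
    have := mul_le_mul_of_nonneg_left q2 hδ0.le
    have e1 : δ * (4 / δ * g) = 4 * g := by field_simp
    linarith
  have r3 : 40 ≤ δ * R := by
    have := mul_le_mul_of_nonneg_left q3 hδ0.le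
    have e1 : δ * (40 / δ) = 40 := by field_simp
    linarith
  obtain ⟨ℓ, hℓ⟩ : ∃ ℓ : ℝ, ℓ = Real.log ((N + n : ℕ) : ℝ) := ⟨_, rfl⟩
  have hm0 : (0 : ℝ) < ((N + n : ℕ) : ℝ) := by exact_mod_cast (by omega : 0 < N + n)
  have hℓ1 : y ≤ ℓ := by
    rw [hy, hℓ]
    exact Real.log_le_log hN0 (by exact_mod_cast (by omega : N ≤ N + n))
  have hℓ2 : ℓ ≤ y + Real.log 2 := by
    rw [hy, hℓ, ← Real.log_mul hN0.ne' (by norm_num)]
    apply Real.log_le_log hm0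
    have : ((N + n : ℕ) : ℝ) ≤ ((N * 2 : ℕ) : ℝ) := by exact_mod_cast (by omega : N + n ≤ N * 2)
    push_cast at this ⊢
    exact this
  obtain ⟨D₀, hD₀⟩ : ∃ D₀ : ℝ, D₀ = k * y / Real.log q := ⟨_, rfl⟩
  obtain ⟨D, hD⟩ : ∃ D : ℝ, D = k * ℓ / Real.log q := ⟨_, rfl⟩
  have hD1 : D₀ ≤ D := by
    rw [hD₀, hD]
    gcongr
  have hD2 : D ≤ D₀ + k := by
    rw [hD₀, hD, div_le_iff₀ hlq0, add_mul, div_mul_cancel₀ _ hlq0.ne']
    have h1 : (k : ℝ) * ℓ ≤ k * (y + Real.log 2) := by gcongr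
    have h2 : (k : ℝ) * Real.log 2 ≤ k * Real.log q := by gcongr
    linarith
  have hRD : R ≤ D₀ := by
    rw [hD₀, le_div_iff₀ hlq0]
    calc R * Real.log q ≤ R * g := by
          apply mul_le_mul_of_nonneg_left hq2
          rw [hR]; positivity
      _ = 1 * y := by rw [hgR, one_mul]
      _ ≤ k * y := by gcongr
  have hδRD : δ * R ≤ δ * D := mul_le_mul_of_nonneg_left (hRD.trans hD1) hδ0.le
  rw [← hℓ, ← hD]
  have hδε : 40 * δ = ε := by rw [hδ]; ring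
  refine ⟨by
    have : δ * D ≤ ε * D := by
      apply mul_le_mul_of_nonneg_right _ (by linarith [hRD, hD1, (by rw [hR]; positivity : 0 ≤ R)])
      linarith
    linarith, ?_⟩
  intro u v huv hv p r hp hpr hr
  -- the three parameters
  obtain ⟨a, ha⟩ : ∃ a : ℕ, a = ⌈2 * δ * k * y / Real.log q⌉₊ + 1 := ⟨_, rfl⟩
  obtain ⟨b, hb⟩ : ∃ b : ℕ, b = ⌊(1 - δ) * k * y / Real.log q⌋₊ := ⟨_, rfl⟩
  obtain ⟨M, hM⟩ : ∃ M : ℕ, M = ⌈Y⌉₊ + 1 := ⟨_, rfl⟩
  have hwin := all_windows (fun i => p ≤ Int.fract (((N + n : ℕ) : ℝ) ^ k / (q : ℝ) ^ i) ∧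
            Int.fract (((N + n : ℕ) : ℝ) ^ k / (q : ℝ) ^ i) < r) a b M (r - p) (ε / 4) (by omega)
            (by linarith) (by linarith) (by positivity) (by
    intro u v hau hvb huM
    have huv' : u ≤ v := by omega
    refine hweyl (fun i => ((N + n : ℕ) : ℝ) ^ k / (q : ℝ) ^ i) u v huv' ?_ p r hp hpr hr
    intro h hh1 hh2
    have h1 := hT n (by rw [mem_Ioc]; exact hn) hnT k q h hk1 (by rw [← hy, ← hg]; exact hk2) hq1
      (by rw [← hy, ← hg]; exact hq2) hh1 hh2 u v (by omega) ?_ ?_ ?_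
    · have h2 : ∀ i : ℕ, (h : ℝ) * (((N + n : ℕ) : ℝ) ^ k / (q : ℝ) ^ (u + i)) =
          (h : ℝ) * ((N + n : ℕ) : ℝ) ^ k / (q : ℝ) ^ (u + i) := fun i => by ring
      simp_rw [h2]
      refine h1.trans ?_
      apply mul_le_mul_of_nonneg_right hη2
      have : (u : ℝ) ≤ v := by exact_mod_cast huv'
      linarith
    · have h2 : 2 * δ * k * y / Real.log q ≤ u := by
        refine (Nat.le_ceil _).trans ?_
        exact_mod_cast (by omega : ⌈2 * δ * k * y / Real.log q⌉₊ ≤ u)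
      rw [div_le_iff₀ hlq0] at h2
      have h3 : (q : ℝ) ^ u = Real.exp (u * Real.log q) := by
        rw [Real.exp_nat_mul, Real.exp_log hq0]
      rw [h3, Real.rpow_def_of_pos hN0, ← hy]
      apply Real.exp_le_exp.2
      linarith
    · have h2 : (v : ℝ) ≤ (1 - δ) * k * y / Real.log q := by
        refine le_trans (by exact_mod_cast hvb : (v : ℝ) ≤ b) ?_
        rw [hb]
        apply Nat.floor_le
        apply div_nonneg _ hlq0.le
        have : 0 ≤ 1 - δ := by linarith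
        positivity
      rw [le_div_iff₀ hlq0] at h2
      have h3 : (q : ℝ) ^ v = Real.exp (v * Real.log q) := by
        rw [Real.exp_nat_mul, Real.exp_log hq0]
      rw [h3, Real.rpow_def_of_pos hN0, ← hy]
      apply Real.exp_le_exp.2
      linarith
    · rw [← hy, ← hY]
      have h2 : Y ≤ ⌈Y⌉₊ := Nat.le_ceil _
      have h3 : ((u + M : ℕ) : ℝ) ≤ v := by exact_mod_cast huM
      rw [hM] at h3
      push_cast at h3
      linarith) u v huv
  refine hwin.trans ?_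
  have b1 : (a : ℝ) ≤ 2 * δ * D + 2 := by
    have h1 := Nat.ceil_lt_add_one (show 0 ≤ 2 * δ * k * y / Real.log q by positivity)
    have h2 : 2 * δ * k * y / Real.log q = 2 * δ * D₀ := by rw [hD₀]; ring
    rw [h2] at h1 ha
    have h3 : 2 * δ * D₀ ≤ 2 * δ * D := by gcongr
    rw [ha]
    push_cast
    linarith
  have b2 : (v : ℝ) ≤ D + 1 := by
    have h1 : (v : ℝ) * Real.log q ≤ Real.log q + k * ℓ := by
      have h2 := Real.log_le_log (by positivity) hv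
      rw [Real.log_pow, Real.log_mul hq0.ne' (by positivity), Real.log_pow, ← hℓ] at h2
      exact h2
    rw [hD]
    have h2 : k * ℓ / Real.log q + 1 = (Real.log q + k * ℓ) / Real.log q := by field_simp; ring
    rw [h2, le_div_iff₀ hlq0]
    exact h1
  have b3 : ((v - b : ℕ) : ℝ) ≤ δ * D + k + 3 := by
    have h1 := Nat.lt_floor_add_one ((1 - δ) * k * y / Real.log q)
    rw [← hb] at h1
    have h2 : (1 - δ) * k * y / Real.log q = (1 - δ) * D₀ := by rw [hD₀]; ring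
    rw [h2] at h1
    have h4 : δ * D₀ ≤ δ * D := by gcongr
    rcases Nat.lt_or_ge v b with h3 | h3
    · rw [Nat.sub_eq_zero_of_le h3.le, Nat.cast_zero]
      linarith
    · rw [Nat.cast_sub h3]
      linarith
  have b4 : (M : ℝ) ≤ Y + 2 := by
    have h1 := Nat.ceil_lt_add_one hY0
    rw [hM]
    push_cast
    linarith
  have b5 : ε / 4 * ((v : ℝ) - u) ≤ ε / 4 * (D + 1) := by
    apply mul_le_mul_of_nonneg_left _ (by positivity)
    have : (0 : ℝ) ≤ u := Nat.cast_nonneg _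
    linarith
  have hD0 : 0 ≤ δ * D := by linarith
  have b6 : ε / 4 * (D + 1) = 10 * (δ * D) + ε / 4 := by rw [← hδε]; ring
  have b7 : ε * D = 40 * (δ * D) := by rw [← hδε]; ring
  rw [b7]
  rw [b6] at b5
  linarith

end Pool.Agent.Helper478.Pow
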