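import Pool.Agent.Helper478_Pow.Mono
import Pool.Agent.Helper478_Gen.Windows
import Pool.Agent.Helper478_Surds.Fin

/-!
# The exponential sums over the digits of powers, for almost all bases
-/

set_option autoImplicit false

namespace Pool.Agent.Helper478.Pow

open Finset Filter
open Pool.Agent.H469R2.NK (e norm_e e_add e_zero conj_e)
open Pool.Agent.Helper478.Surds (ev_pow norm_sum_abs)
open Pool.Agent.Helper478.Gen (SignBd absW)

/-- the sums of signed powers of the base -/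
lemma signed_int (q : ℕ) (hq : 2 ≤ q) (ε : ℕ → ℤ) (hε : ∀ i, |ε i| ≤ 1) : ∀ L : ℕ,
    |∑ i ∈ Icc 1 L, ε i * (q : ℤ) ^ (L - i)| ≤ (q : ℤ) ^ L - 1 ∧
      ((∃ i ∈ Icc 1 L, ε i ≠ 0) → ∑ i ∈ Icc 1 L, ε i * (q : ℤ) ^ (L - i) ≠ 0) := by
  intro L
  have hq' : (2 : ℤ) ≤ q := by exact_mod_cast hq
  induction L with
  | zero => simp
  | succ L ih =>
    have h1 : ∑ i ∈ Icc 1 (L + 1), ε i * (q : ℤ) ^ (L + 1 - i) =
        q * ∑ i ∈ Icc 1 L, ε i * (q : ℤ) ^ (L - i) + ε (L + 1) := by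
      rw [sum_Icc_succ_top (by omega), Nat.sub_self, pow_zero, mul_one, mul_sum]
      congr 1
      refine sum_congr rfl fun i hi => ?_
      rw [mem_Icc] at hi
      rw [show L + 1 - i = (L - i) + 1 by omega, pow_succ]
      ring
    rw [h1]
    obtain ⟨Z, hZ⟩ : ∃ Z : ℤ, Z = ∑ i ∈ Icc 1 L, ε i * (q : ℤ) ^ (L - i) := ⟨_, rfl⟩
    rw [← hZ] at ih ⊢
    have h2 := hε (L + 1)
    constructor
    · calc |(q : ℤ) * Z + ε (L + 1)| ≤ |(q : ℤ) * Z| + |ε (L + 1)| := abs_add_le _ _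
        _ = q * |Z| + |ε (L + 1)| := by rw [abs_mul, abs_of_nonneg (by linarith : (0 : ℤ) ≤ q)]
        _ ≤ q * ((q : ℤ) ^ L - 1) + 1 := by
            have := mul_le_mul_of_nonneg_left ih.1 (by linarith : (0 : ℤ) ≤ q)
            linarith
        _ ≤ (q : ℤ) ^ (L + 1) - 1 := by rw [pow_succ]; linarith
    · rintro ⟨i, hi, hi0⟩ h0
      rw [mem_Icc] at hi
      have hZ0 : Z = 0 := by
        by_contra hcon
        have h3 : 1 ≤ |Z| := Int.one_le_abs hcon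
        have h4 : (q : ℤ) * |Z| = |ε (L + 1)| := by
          have h5 : (q : ℤ) * Z = -ε (L + 1) := by linarith
          rw [← abs_neg (ε (L + 1)), ← h5, abs_mul, abs_of_nonneg (by linarith : (0 : ℤ) ≤ q)]
        nlinarith
      have h3 : ε (L + 1) = 0 := by rw [hZ0] at h0; linarith
      rcases Nat.lt_or_ge i (L + 1) with h4 | h4
      · exact ih.2 ⟨i, by rw [mem_Icc]; omega, hi0⟩ hZ0
      · exact hi0 (by rw [show i = L + 1 by omega]; exact h3)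

/-- the signed sums of the phases -/
lemma signed_real (q : ℕ) (hq : 2 ≤ q) (ε : ℕ → ℤ) (w L : ℕ) (x : ℝ) :
    ∑ i ∈ Icc 1 L, (ε i : ℝ) * (x / (q : ℝ) ^ (w + 1 * i)) =
      ((∑ i ∈ Icc 1 L, ε i * (q : ℤ) ^ (L - i) : ℤ) : ℝ) / (q : ℝ) ^ (w + L) * x := by
  have hq0 : (0 : ℝ) < q := by exact_mod_cast (by omega : 0 < q)
  push_cast
  rw [sum_div, sum_mul]
  refine sum_congr rfl fun i hi => ?_
  rw [mem_Icc] at hi
  have h1 : (q : ℝ) ^ (w + L) = (q : ℝ) ^ (w + 1 * i) * (q : ℝ) ^ (L - i) := by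
    rw [← pow_add]; congr 1; omega
  rw [h1]
  field_simp

/-- the bounds for the signed sums -/
lemma sign_bd (δ : ℝ) (N k q h w L : ℕ) (W : ℝ) (hN : 1 ≤ N) (hk : 1 ≤ k) (hq : 2 ≤ q) (hh : 1 ≤ h)
    (hhN : (h : ℝ) ≤ (N : ℝ) ^ δ) (hδ : 0 < δ)
    (hmono : ∀ F : ℝ, (N : ℝ) ^ (δ * k) ≤ F * (N : ℝ) ^ k → F * (N : ℝ) ^ k ≤ (N : ℝ) ^ ((1 - δ) * k) →
      ‖∑ n ∈ Ioc 0 N, e (F * ((N + n : ℕ) : ℝ) ^ k)‖ ≤ W)
    (hP : (N : ℝ) ^ (2 * δ * k) ≤ (q : ℝ) ^ w) (hhi : (q : ℝ) ^ (w + L) ≤ (N : ℝ) ^ ((1 - δ) * k)) :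
    SignBd (Ioc 0 N) (fun i n => (h : ℝ) * ((N + n : ℕ) : ℝ) ^ k / (q : ℝ) ^ (w + 1 * i)) L W := by
  intro ε hε hex
  have hN0 : (0 : ℝ) < N := by exact_mod_cast hN
  have hN1 : (1 : ℝ) ≤ N := by exact_mod_cast hN
  have hq0 : (0 : ℝ) < q := by exact_mod_cast (by omega : 0 < q)
  have hk1 : (1 : ℝ) ≤ k := by exact_mod_cast hk
  have hh1 : (1 : ℝ) ≤ h := by exact_mod_cast hh
  obtain ⟨Z, hZ⟩ : ∃ Z : ℤ, Z = ∑ i ∈ Icc 1 L, ε i * (q : ℤ) ^ (L - i) := ⟨_, rfl⟩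
  obtain ⟨h1, h2⟩ := signed_int q hq ε hε L
  have h2' := h2 hex
  rw [← hZ] at h1 h2'
  have hZ1 : (1 : ℝ) ≤ |(Z : ℝ)| := by exact_mod_cast Int.one_le_abs h2'
  have hZ2 : |(Z : ℝ)| ≤ (q : ℝ) ^ L := by
    have h3 : |Z| ≤ (q : ℤ) ^ L := by linarith
    exact_mod_cast h3
  simp_rw [signed_real q hq ε w L, ← hZ]
  obtain ⟨G, hG⟩ : ∃ G : ℝ, G = (Z : ℝ) / (q : ℝ) ^ (w + L) * h := ⟨_, rfl⟩
  have h3 : ∀ n : ℕ, (Z : ℝ) / (q : ℝ) ^ (w + L) * ((h : ℝ) * ((N + n : ℕ) : ℝ) ^ k) =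
      G * ((N + n : ℕ) : ℝ) ^ k := by
    intro n; rw [hG]; ring
  simp_rw [h3]
  rw [norm_sum_abs]
  have hGabs : |G| = |(Z : ℝ)| / (q : ℝ) ^ (w + L) * h := by
    rw [hG, abs_mul, abs_div, abs_of_pos (by positivity : (0 : ℝ) < (q : ℝ) ^ (w + L)),
      abs_of_pos (by positivity : (0 : ℝ) < h)]
  have hNk : (N : ℝ) ^ k = (N : ℝ) ^ ((k : ℕ) : ℝ) := (Real.rpow_natCast _ _).symm
  apply hmono
  · rw [hGabs]
    have h4 : (N : ℝ) ^ (δ * k) * (q : ℝ) ^ (w + L) ≤ (N : ℝ) ^ k := by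
      calc (N : ℝ) ^ (δ * k) * (q : ℝ) ^ (w + L) ≤ (N : ℝ) ^ (δ * k) * (N : ℝ) ^ ((1 - δ) * k) := by
            gcongr
        _ = (N : ℝ) ^ k := by
            rw [← Real.rpow_add hN0, hNk]; congr 1; ring
    have h5 : (N : ℝ) ^ (δ * k) ≤ 1 / (q : ℝ) ^ (w + L) * (N : ℝ) ^ k := by
      rw [one_div, ← div_eq_inv_mul, le_div_iff₀ (by positivity)]
      exact h4
    refine h5.trans ?_
    apply mul_le_mul_of_nonneg_right _ (by positivity)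
    calc 1 / (q : ℝ) ^ (w + L) = 1 / (q : ℝ) ^ (w + L) * 1 := (mul_one _).symm
      _ ≤ |(Z : ℝ)| / (q : ℝ) ^ (w + L) * h := by gcongr
  · rw [hGabs]
    have h4 : |(Z : ℝ)| / (q : ℝ) ^ (w + L) ≤ 1 / (q : ℝ) ^ w := by
      rw [div_le_div_iff₀ (by positivity) (by positivity), one_mul, pow_add]
      calc |(Z : ℝ)| * (q : ℝ) ^ w ≤ (q : ℝ) ^ L * (q : ℝ) ^ w := by gcongr
        _ = _ := mul_comm _ _
    have h5 : 1 / (q : ℝ) ^ w ≤ 1 / (N : ℝ) ^ (2 * δ * k) := by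
      apply one_div_le_one_div_of_le (by positivity) hP
    have h6 : (N : ℝ) ^ δ ≤ (N : ℝ) ^ (δ * k) := by
      apply Real.rpow_le_rpow_of_exponent_le hN1
      exact le_mul_of_one_le_right hδ.le hk1
    calc |(Z : ℝ)| / (q : ℝ) ^ (w + L) * h * (N : ℝ) ^ k ≤
          1 / (N : ℝ) ^ (2 * δ * k) * (N : ℝ) ^ (δ * k) * (N : ℝ) ^ k :=
          mul_le_mul_of_nonneg_right
            (mul_le_mul (h4.trans h5) (hhN.trans h6) (by positivity) (by positivity)) (by positivity)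
      _ = (N : ℝ) ^ ((1 - δ) * k) := by
          rw [one_div, ← Real.rpow_neg hN0.le, hNk, ← Real.rpow_add hN0, ← Real.rpow_add hN0]
          congr 1
          ring

/-- **the exponential sums over windows of digits of powers**, for almost all `n` -/
theorem pow_exp : ∃ γ : ℝ, 0 < γ ∧ γ ≤ 1 / 100 ∧ ∀ δ : ℝ, 0 < δ → δ < 1 → ∀ η : ℝ, 0 < η → η ≤ 1 →
    ∀ H : ℕ, ∃ N₀ : ℕ, ∀ N : ℕ, N₀ ≤ N → ∃ T : Finset ℕ,
      (T.card : ℝ) ≤ N * Real.exp (-√(Real.log N)) ∧ ∀ n ∈ Ioc 0 N, n ∉ T → ∀ k q h : ℕ,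
        1 ≤ k → (k : ℝ) ≤ (Real.log N) ^ γ → 2 ≤ q → Real.log q ≤ (Real.log N) ^ γ → 1 ≤ h → h ≤ H →
        ∀ u v : ℕ, 1 ≤ u → (N : ℝ) ^ (2 * δ * k) ≤ (q : ℝ) ^ u →
          (q : ℝ) ^ v ≤ (N : ℝ) ^ ((1 - δ) * k) → (u : ℝ) + (Real.log N) ^ (1 - 9 * γ) + 1 ≤ v →
          ‖∑ i ∈ Icc 1 (v - u), e ((h : ℝ) * ((N + n : ℕ) : ℝ) ^ k / (q : ℝ) ^ (u + i))‖ ≤
            2 * η * ((v : ℝ) - u) := by
  obtain ⟨γ, hγ0, hγ1, hmono⟩ := mono_bd
  refine ⟨γ, hγ0, hγ1, ?_⟩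
  intro δ hδ0 hδ1 η hη0 hη1 H
  obtain ⟨N₁, hN₁⟩ := hmono δ hδ0 hδ1
  have ev1 : ∀ᶠ y : ℝ in atTop, 2 * y ^ (0 : ℝ) ≤ y ^ (1 - 9 * γ) := ev_pow _ _ _ (by linarith)
  have ev2 : ∀ᶠ y : ℝ in atTop, (48 / η ^ 2) * y ^ (1 / 2 : ℝ) ≤ y ^ (1 - 9 * γ) :=
    ev_pow _ _ _ (by linarith)
  have ev3 : ∀ᶠ y : ℝ in atTop, 24 * (H + 1 : ℝ) * y ^ 5 ≤ Real.exp (y ^ (1 / 2 : ℝ)) := by
    have t1 := Real.tendsto_pow_mul_exp_neg_atTop_nhds_zero 10
    have t2 := t1.comp (tendsto_rpow_atTop (by norm_num : (0 : ℝ) < 1 / 2))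
    have t3 := t2.eventually (ge_mem_nhds (show (0 : ℝ) < 1 / (24 * (H + 1 : ℝ)) by positivity))
    filter_upwards [t3, eventually_ge_atTop 1] with y hy hy1
    have hy0 : 0 < y := by linarith
    simp only [Function.comp] at hy
    have f1 : (y ^ (1 / 2 : ℝ)) ^ 10 = y ^ 5 := by
      rw [← Real.rpow_natCast, ← Real.rpow_mul hy0.le, ← Real.rpow_natCast]
      norm_num
    rw [f1, Real.exp_neg, ← div_eq_mul_inv, div_le_div_iff₀ (Real.exp_pos _) (by positivity)] at hy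
    linarith
  have ev4 : ∀ᶠ y : ℝ in atTop, 1 * y ^ γ ≤ y ^ (1 / 2 : ℝ) := ev_pow _ _ _ (by linarith)
  have ev5 : ∀ᶠ y : ℝ in atTop, Real.log (H + 1) / δ ≤ y := eventually_ge_atTop _
  have hlog : Tendsto (fun N : ℕ => Real.log N) atTop atTop :=
    Real.tendsto_log_atTop.comp tendsto_natCast_atTop_atTop
  have hev := hlog.eventually (((ev1.and ev2).and (ev3.and ev4)).and (ev5.and (eventually_ge_atTop 20)))
  obtain ⟨N₀, hN₀⟩ := eventually_atTop.1 (hev.and (eventually_ge_atTop (max N₁ 2)))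
  refine ⟨N₀, ?_⟩
  intro N hN
  obtain ⟨⟨⟨⟨q1, q2⟩, q3, q4⟩, q5, q11⟩, q12⟩ := hN₀ N hN
  obtain ⟨y, hy⟩ : ∃ y : ℝ, y = Real.log N := ⟨_, rfl⟩
  rw [← hy] at q1 q2 q3 q4 q5 q11 ⊢
  have hy0 : 0 < y := by linarith
  have hy1 : 1 ≤ y := by linarith
  have hN2 : 2 ≤ N := (le_max_right _ _).trans q12
  have hNN₁ : N₁ ≤ N := (le_max_left _ _).trans q12
  have hN1' : 1 ≤ N := by omega
  have hN1 : (1 : ℝ) ≤ N := by exact_mod_cast hN1'
  have hN0 : (0 : ℝ) < N := by linarith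
  rw [Real.rpow_zero, mul_one] at q1
  rw [one_mul] at q4
  obtain ⟨Y, hY⟩ : ∃ Y : ℝ, Y = y ^ (1 - 9 * γ) := ⟨_, rfl⟩
  have hYy : Y ≤ y := by
    rw [hY]
    calc y ^ (1 - 9 * γ) ≤ y ^ (1 : ℝ) := Real.rpow_le_rpow_of_exponent_le hy1 (by linarith)
      _ = y := Real.rpow_one _
  rw [← hY] at q1 q2 ⊢
  obtain ⟨g, hg⟩ : ∃ g : ℝ, g = y ^ γ := ⟨_, rfl⟩
  have hg1 : 1 ≤ g := by
    rw [hg]
    exact Real.one_le_rpow hy1 hγ0.le
  have hgy : g ≤ y := by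
    rw [hg]
    calc y ^ γ ≤ y ^ (1 : ℝ) := Real.rpow_le_rpow_of_exponent_le hy1 (by linarith)
      _ = y := Real.rpow_one _
  -- the block length
  obtain ⟨m, hm⟩ : ∃ m : ℕ, m = ⌊Y⌋₊ := ⟨_, rfl⟩
  have hm1 : 1 ≤ m := by
    rw [hm]; exact Nat.le_floor (by push_cast; linarith)
  have hmle : (m : ℝ) ≤ Y := by rw [hm]; exact Nat.floor_le (by linarith)
  have hmge : Y / 2 ≤ m := by
    have := Nat.lt_floor_add_one Y
    rw [← hm] at this
    linarith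
  obtain ⟨W, hW⟩ : ∃ W : ℝ, W = N * Real.exp (-(2 * Y)) := ⟨_, rfl⟩
  have hW0 : 0 ≤ W := by rw [hW]; positivity
  have h2W : ∀ k : ℕ, k < 2 * m → 2 ^ k * W ≤ N := by
    intro k hk
    have e1 : (2 : ℝ) ^ k ≤ Real.exp (2 * Y) := by
      have hk' : (k : ℝ) ≤ 2 * m := by exact_mod_cast hk.le
      calc (2 : ℝ) ^ k ≤ (Real.exp 1) ^ k := by
            apply pow_le_pow_left₀ (by norm_num)
            have := Real.exp_one_gt_d9; linarith
        _ = Real.exp k := by rw [← Real.exp_nat_mul, mul_one]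
        _ ≤ Real.exp (2 * Y) := Real.exp_le_exp.2 (by linarith)
    calc (2 : ℝ) ^ k * W ≤ Real.exp (2 * Y) * W := by gcongr
      _ = N * (Real.exp (2 * Y) * Real.exp (-(2 * Y))) := by rw [hW]; ring
      _ = N := by rw [← Real.exp_add, add_neg_cancel, Real.exp_zero, mul_one]
  -- the index set
  let A : Finset (ℕ × ℕ × ℕ) := Icc 1 ⌊g⌋₊ ×ˢ (Icc 2 ⌊Real.exp g⌋₊ ×ˢ Icc 1 H)
  let hi : ℕ × ℕ × ℕ → ℕ := fun a => ⌊(1 - δ) * a.1 * y / Real.log a.2.1⌋₊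
  have hlogq : ∀ q : ℕ, 2 ≤ q → 1 / 2 ≤ Real.log q := by
    intro q hq
    have h1 : Real.log 2 ≤ Real.log q := Real.log_le_log (by norm_num) (by exact_mod_cast hq)
    have := Real.log_two_gt_d9
    linarith
  have hhiq : ∀ k q h t : ℕ, 2 ≤ q → t ≤ hi (k, q, h) → (q : ℝ) ^ t ≤ (N : ℝ) ^ ((1 - δ) * k) := by
    intro k q h t hq ht
    have hq0 : (0 : ℝ) < q := by exact_mod_cast (by omega : 0 < q)
    have hlq := hlogq q hq
    have hlq0 : 0 < Real.log q := by linarith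
    have h1 : (t : ℝ) ≤ (1 - δ) * k * y / Real.log q := by
      refine le_trans (by exact_mod_cast ht) (Nat.floor_le ?_)
      apply div_nonneg _ hlq0.le
      have : 0 ≤ 1 - δ := by linarith
      positivity
    rw [le_div_iff₀ hlq0] at h1
    have h2 : (q : ℝ) ^ t = Real.exp (t * Real.log q) := by
      rw [Real.exp_nat_mul, Real.exp_log hq0]
    rw [h2, Real.rpow_def_of_pos hN0, ← hy]
    apply Real.exp_le_exp.2
    linarith
  have hsign : ∀ a ∈ A, ∀ w L : ℕ, m ≤ L → L < 2 * m → (N : ℝ) ^ (2 * δ * a.1) ≤ (a.2.1 : ℝ) ^ w →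
      w + 1 * L ≤ hi a →
      SignBd (Ioc 0 N) (fun i n => (a.2.2 : ℝ) * ((N + n : ℕ) : ℝ) ^ a.1 / (a.2.1 : ℝ) ^ (w + 1 * i))
        L W := by
    rintro ⟨k, q, h⟩ ha w L _ _ hP hwL
    simp only [A, mem_product, mem_Icc] at ha
    simp only at hP hwL ⊢
    obtain ⟨⟨hk1, hk2⟩, ⟨hq1, hq2⟩, hh1, hh2⟩ := ha
    have hkg : (k : ℝ) ≤ y ^ γ := by
      rw [← hg]
      exact le_trans (by exact_mod_cast hk2) (Nat.floor_le (by linarith))
    refine sign_bd δ N k q h w L W hN1' hk1 hq1 hh1 ?_ hδ0 ?_ hP ?_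
    · have h1 : (h : ℝ) ≤ H + 1 := by
        have : (h : ℝ) ≤ H := by exact_mod_cast hh2
        linarith
      refine h1.trans ?_
      rw [Real.rpow_def_of_pos hN0, ← hy]
      have h2 : (H : ℝ) + 1 = Real.exp (Real.log (H + 1)) := (Real.exp_log (by positivity)).symm
      rw [h2]
      apply Real.exp_le_exp.2
      rw [div_le_iff₀ hδ0] at q5
      exact q5
    · intro F hF1 hF2
      have := hN₁ N hNN₁ k hk1 (by rw [← hy]; exact hkg) F hF1 hF2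
      rw [← hy, ← hY, ← hW] at this
      exact this
    · exact hhiq k q h (w + L) hq1 (by rw [one_mul] at hwL; exact hwL)
  obtain ⟨T, hTcard, hT⟩ := absW A
    (fun a i n => (a.2.2 : ℝ) * ((N + n : ℕ) : ℝ) ^ a.1 / (a.2.1 : ℝ) ^ i)
    (fun a w => (N : ℝ) ^ (2 * δ * a.1) ≤ (a.2.1 : ℝ) ^ w) hi N 1 m η W le_rfl hm1
    hη0 hη1 hW0 h2W hsign
  refine ⟨T, ?_, ?_⟩
  · -- the number of exceptions
    refine hTcard.trans ?_
    have h1 : ∀ a ∈ A, ((hi a : ℝ) + 1) * (m * (8 * N * Real.exp (-(η ^ 2 * m / 8)))) ≤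
        (3 * y ^ 2) * (y * (8 * N * Real.exp (-(3 * y ^ (1 / 2 : ℝ))))) := by
      rintro ⟨k, q, h⟩ ha
      simp only [A, mem_product, mem_Icc] at ha
      obtain ⟨⟨hk1, hk2⟩, ⟨hq1, hq2⟩, hh1, hh2⟩ := ha
      have hkg : (k : ℝ) ≤ g := le_trans (by exact_mod_cast hk2) (Nat.floor_le (by linarith))
      have hlq := hlogq q hq1
      have f1 : ((hi (k, q, h) : ℕ) : ℝ) + 1 ≤ 3 * y ^ 2 := by
        have f2 : ((hi (k, q, h) : ℕ) : ℝ) ≤ (1 - δ) * k * y / Real.log q := by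
          apply Nat.floor_le
          apply div_nonneg _ (by linarith)
          have : 0 ≤ 1 - δ := by linarith
          positivity
        have f3 : (1 - δ) * k * y / Real.log q ≤ 2 * y ^ 2 := by
          rw [div_le_iff₀ (by linarith)]
          have f4 : (1 - δ) * k * y ≤ 1 * y * y := by
            have : (k : ℝ) ≤ y := hkg.trans hgy
            gcongr
            linarith
          have f5 : 1 * y * y = 2 * y ^ 2 * (1 / 2) := by ring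
          have f6 : 2 * y ^ 2 * (1 / 2) ≤ 2 * y ^ 2 * Real.log q := by gcongr
          linarith
        have f4 : 1 ≤ y ^ 2 := one_le_pow₀ hy1
        linarith
      have f2 : Real.exp (-(η ^ 2 * m / 8)) ≤ Real.exp (-(3 * y ^ (1 / 2 : ℝ))) := by
        apply Real.exp_le_exp.2
        have f3 : η ^ 2 * (48 / η ^ 2 * y ^ (1 / 2 : ℝ)) = 48 * y ^ (1 / 2 : ℝ) := by field_simp
        have f4 := mul_le_mul_of_nonneg_left q2 (by positivity : 0 ≤ η ^ 2)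
        have f5 : η ^ 2 * (Y / 2) ≤ η ^ 2 * m := by gcongr
        linarith
      have f3 : (m : ℝ) ≤ y := hmle.trans hYy
      gcongr
    refine (sum_le_sum h1).trans ?_
    rw [sum_const, nsmul_eq_mul]
    have hcard : (A.card : ℝ) ≤ y * (Real.exp (y ^ (1 / 2 : ℝ)) * (H + 1)) := by
      simp only [A, card_product, Nat.card_Icc]
      have f1 : ((⌊g⌋₊ + 1 - 1 : ℕ) : ℝ) ≤ y := by
        rw [Nat.add_sub_cancel]
        exact (Nat.floor_le (by linarith)).trans hgy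
      have f2 : ((⌊Real.exp g⌋₊ + 1 - 2 : ℕ) : ℝ) ≤ Real.exp (y ^ (1 / 2 : ℝ)) := by
        have f3 : ((⌊Real.exp g⌋₊ + 1 - 2 : ℕ) : ℝ) ≤ (⌊Real.exp g⌋₊ : ℝ) := by
          exact_mod_cast (by omega : ⌊Real.exp g⌋₊ + 1 - 2 ≤ ⌊Real.exp g⌋₊)
        refine f3.trans ((Nat.floor_le (Real.exp_pos _).le).trans ?_)
        apply Real.exp_le_exp.2
        rw [hg]
        exact q4
      have f3 : ((H + 1 - 1 : ℕ) : ℝ) ≤ H + 1 := by
        rw [Nat.add_sub_cancel]; linarith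
      push_cast
      push_cast at f1 f2 f3
      gcongr
    have hsqrt : √y = y ^ (1 / 2 : ℝ) := Real.sqrt_eq_rpow y
    rw [hsqrt]
    obtain ⟨E, hE⟩ : ∃ E : ℝ, E = Real.exp (y ^ (1 / 2 : ℝ)) := ⟨_, rfl⟩
    have hE0 : 0 < E := by rw [hE]; exact Real.exp_pos _
    have hE3 : Real.exp (-(3 * y ^ (1 / 2 : ℝ))) = 1 / E ^ 3 := by
      have e1 : E ^ 3 = Real.exp (3 * y ^ (1 / 2 : ℝ)) := by
        rw [hE, ← Real.exp_nat_mul]; push_cast; rfl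
      rw [e1, Real.exp_neg]
      exact (one_div _).symm
    have hE1 : Real.exp (-(y ^ (1 / 2 : ℝ))) = 1 / E := by
      rw [Real.exp_neg, hE]
      exact (one_div _).symm
    rw [← hE] at q3 hcard
    rw [hE3, hE1]
    obtain ⟨c1, hc1⟩ : ∃ c : ℝ, c = (A.card : ℝ) := ⟨_, rfl⟩
    rw [← hc1] at hcard ⊢
    obtain ⟨M, hM⟩ : ∃ M : ℝ, M = (N : ℝ) := ⟨_, rfl⟩
    rw [← hM] at hN0 ⊢
    obtain ⟨H', hH'⟩ : ∃ H' : ℝ, H' = (H : ℝ) + 1 := ⟨_, rfl⟩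
    rw [← hH'] at hcard q3
    have hH0 : 0 ≤ H' := by rw [hH']; positivity
    calc c1 * (3 * y ^ 2 * (y * (8 * M * (1 / E ^ 3)))) ≤
          (y * (E * H')) * (3 * y ^ 2 * (y * (8 * M * (1 / E ^ 3)))) := by gcongr
      _ = (24 * H' * y ^ 4) * (M * (1 / E ^ 2)) := by field_simp; ring
      _ ≤ (24 * H' * y ^ 5) * (M * (1 / E ^ 2)) := by
          gcongr
          norm_num
      _ ≤ E * (M * (1 / E ^ 2)) := by
          apply mul_le_mul_of_nonneg_right q3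
          positivity
      _ = M * (1 / E) := by field_simp
  · intro n hn hnT k q h hk1 hk2 hq1 hq2 hh1 hh2 u v hu1 hu hv huv
    have hq0 : (0 : ℝ) < q := by exact_mod_cast (by omega : 0 < q)
    have hq1' : (1 : ℝ) ≤ q := by exact_mod_cast (by omega : 1 ≤ q)
    have hlq := hlogq q hq1
    have haA : (k, q, h) ∈ A := by
      simp only [A, mem_product, mem_Icc]
      refine ⟨⟨hk1, Nat.le_floor (by rw [hg]; exact hk2)⟩, ⟨hq1, Nat.le_floor ?_⟩, hh1, hh2⟩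
      rw [← Real.exp_log hq0]
      apply Real.exp_le_exp.2
      rw [hg]; exact hq2
    refine hT n hn hnT (k, q, h) haA u v hu1 ?_ ?_ ?_
    · intro w hw
      simp only
      refine hu.trans ?_
      exact pow_le_pow_right₀ hq1' (by omega)
    · simp only [hi]
      apply Nat.le_floor
      rw [le_div_iff₀ (by linarith)]
      have h2 : (q : ℝ) ^ v = Real.exp (v * Real.log q) := by
        rw [Real.exp_nat_mul, Real.exp_log hq0]
      rw [h2, Real.rpow_def_of_pos hN0, ← hy, Real.exp_le_exp] at hv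
      linarith
    · have h1 : ((u + 1 * (m + 1) : ℕ) : ℝ) ≤ v := by
        push_cast
        linarith
      exact_mod_cast h1

end Pool.Agent.Helper478.Pow
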