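import Pool.Agent.Helper478_Pow.Dig

/-!
# The digits of powers: digits, words, all bases up to `x`
-/

set_option autoImplicit false

namespace Pool.Agent.Helper478.Pow

open Finset Filter
open Pool.Agent.Helper478.Surds (ev_pow)

/-- a word of digits as a condition on the fractional part -/
lemma word_iff (q X i l c : ℕ) (hq : 1 ≤ q) : X / q ^ i % q ^ l = c ↔
    ((c : ℝ) / (q : ℝ) ^ l ≤ Int.fract ((X : ℝ) / (q : ℝ) ^ (i + l)) ∧
      Int.fract ((X : ℝ) / (q : ℝ) ^ (i + l)) < ((c : ℝ) + 1) / (q : ℝ) ^ l) := by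
  have hq0 : (0 : ℝ) < q := by exact_mod_cast (by omega : 0 < q)
  have h1 : Int.fract ((X : ℝ) / (q : ℝ) ^ (i + l)) =
      ((X % q ^ (i + l) : ℕ) : ℝ) / ((q ^ (i + l) : ℕ) : ℝ) := by
    have h := Int.fract_div_natCast_eq_div_natCast_mod (k := ℝ) (m := X) (n := q ^ (i + l))
    push_cast at h ⊢
    exact h
  have h2 : X / q ^ i % q ^ l = X % q ^ (i + l) / q ^ i := by
    rw [pow_add, Nat.mod_mul_right_div_self]
  rw [h1, h2]
  obtain ⟨Z, hZ⟩ : ∃ Z, Z = X % q ^ (i + l) := ⟨_, rfl⟩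
  rw [← hZ]
  have h3 : ((q ^ (i + l) : ℕ) : ℝ) = (q : ℝ) ^ l * (q : ℝ) ^ i := by push_cast; rw [pow_add]; ring
  have h4 : (0 : ℝ) < (q : ℝ) ^ l := by positivity
  have h5 : (0 : ℝ) < (q : ℝ) ^ i := by positivity
  have h6 : (c : ℝ) / (q : ℝ) ^ l ≤ (Z : ℝ) / ((q ^ (i + l) : ℕ) : ℝ) ↔ c * q ^ i ≤ Z := by
    rw [h3, div_le_div_iff₀ h4 (by positivity)]
    constructor
    · intro h
      have : (c : ℝ) * (q : ℝ) ^ i ≤ Z := by
        have e1 : (c : ℝ) * ((q : ℝ) ^ l * (q : ℝ) ^ i) = (c * (q : ℝ) ^ i) * (q : ℝ) ^ l := by ring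
        rw [e1] at h
        exact le_of_mul_le_mul_right h h4
      exact_mod_cast this
    · intro h
      have : (c : ℝ) * (q : ℝ) ^ i ≤ Z := by exact_mod_cast h
      have e1 : (c : ℝ) * ((q : ℝ) ^ l * (q : ℝ) ^ i) = (c * (q : ℝ) ^ i) * (q : ℝ) ^ l := by ring
      rw [e1]
      exact mul_le_mul_of_nonneg_right this h4.le
  have h7 : (Z : ℝ) / ((q ^ (i + l) : ℕ) : ℝ) < ((c : ℝ) + 1) / (q : ℝ) ^ l ↔ Z < (c + 1) * q ^ i := by
    rw [h3, div_lt_div_iff₀ (by positivity) h4]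
    constructor
    · intro h
      have : (Z : ℝ) < ((c : ℝ) + 1) * (q : ℝ) ^ i := by
        have e1 : ((c : ℝ) + 1) * ((q : ℝ) ^ l * (q : ℝ) ^ i) =
          (((c : ℝ) + 1) * (q : ℝ) ^ i) * (q : ℝ) ^ l := by ring
        rw [e1] at h
        exact lt_of_mul_lt_mul_right h h4.le
      exact_mod_cast this
    · intro h
      have : (Z : ℝ) < ((c : ℝ) + 1) * (q : ℝ) ^ i := by exact_mod_cast h
      have e1 : ((c : ℝ) + 1) * ((q : ℝ) ^ l * (q : ℝ) ^ i) =
          (((c : ℝ) + 1) * (q : ℝ) ^ i) * (q : ℝ) ^ l := by ring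
      rw [e1]
      exact mul_lt_mul_of_pos_right this h4
  rw [h6, h7]
  have hqi : 0 < q ^ i := by positivity
  constructor
  · intro h
    have e1 := Nat.div_add_mod Z (q ^ i)
    have e2 := Nat.mod_lt Z hqi
    rw [h] at e1
    constructor
    · calc c * q ^ i = q ^ i * c := mul_comm _ _
        _ ≤ q ^ i * c + Z % q ^ i := Nat.le_add_right _ _
        _ = Z := e1
    · calc Z = q ^ i * c + Z % q ^ i := e1.symm
        _ < q ^ i * c + q ^ i := Nat.add_lt_add_left e2 _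
        _ = (c + 1) * q ^ i := by ring
  · rintro ⟨e1, e2⟩
    apply Nat.div_eq_of_lt_le
    · exact e1
    · exact e2

lemma count_list (l : List ℕ) (b : ℕ) :
    l.count b = ((range l.length).filter fun i => l.getD i 0 = b).card := by
  induction l with
  | nil => simp
  | cons a l ih =>
    rw [List.count_cons, List.length_cons, card_filter, sum_range_succ', ih, card_filter]
    simp only [List.getD_cons_succ, List.getD_cons_zero, beq_iff_eq]

/-- the number of digits `b` -/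
lemma count_digits (q X b : ℕ) (hq : 2 ≤ q) : (Nat.digits q X).count b =
    ((range (Nat.digits q X).length).filter fun i => X / q ^ i % q = b).card := by
  rw [count_list]
  congr 1
  apply filter_congr
  intro i _
  rw [Nat.getD_digits X i hq]

/-- the digits of `m ^ n` in base `q` are well distributed -/
structure WellDistributed (ε : ℝ) (q m n : ℕ) : Prop where
  /-- every digit has nearly the right frequency -/
  digit : ∀ b < q, |((Nat.digits q (m ^ n)).count b : ℝ) / (n * Real.logb q m) - 1 / q| ≤ ε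
  /-- every word of `l` digits has nearly the right frequency at all windows of places -/
  word : ∀ l c u v : ℕ, 1 ≤ l → c < q ^ l → u ≤ v → v + l ≤ (Nat.digits q (m ^ n)).length + 1 →
    |(((Ico u v).filter fun i => m ^ n / q ^ i % q ^ l = c).card : ℝ) - ((v : ℝ) - u) / (q : ℝ) ^ l| ≤
      ε * (n * Real.logb q m)
  /-- the same for the fractional parts and all intervals -/
  interval : ∀ u v : ℕ, u ≤ v → v ≤ (Nat.digits q (m ^ n)).length → ∀ p r : ℝ, 0 ≤ p → p ≤ r → r ≤ 1 →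
    |(((Ioc u v).filter fun i => p ≤ Int.fract ((m : ℝ) ^ n / (q : ℝ) ^ i) ∧
      Int.fract ((m : ℝ) ^ n / (q : ℝ) ^ i) < r).card : ℝ) - ((v : ℝ) - u) * (r - p)| ≤
      ε * (n * Real.logb q m)

lemma well_of (ε : ℝ) (q m n : ℕ) (hq : 2 ≤ q) (hm : 1 ≤ m) (hε : 0 < ε)
    (hD : 1 ≤ ε * (n * Real.log m / Real.log q))
    (h : ∀ u v : ℕ, u ≤ v → (q : ℝ) ^ v ≤ q * (m : ℝ) ^ n → ∀ p r : ℝ, 0 ≤ p → p ≤ r → r ≤ 1 →
      |(((Ioc u v).filter fun i => p ≤ Int.fract ((m : ℝ) ^ n / (q : ℝ) ^ i) ∧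
        Int.fract ((m : ℝ) ^ n / (q : ℝ) ^ i) < r).card : ℝ) - ((v : ℝ) - u) * (r - p)| ≤
        ε * (n * Real.log m / Real.log q)) : WellDistributed (2 * ε) q m n := by
  have hq0 : (0 : ℝ) < q := by exact_mod_cast (by omega : 0 < q)
  have hq1 : (1 : ℝ) < q := by exact_mod_cast (by omega : 1 < q)
  have hlq : 0 < Real.log q := Real.log_pos hq1
  obtain ⟨D, hDd⟩ : ∃ D : ℝ, D = n * Real.logb q m := ⟨_, rfl⟩
  have hDe : n * Real.log m / Real.log q = D := by
    rw [hDd, Real.logb, mul_div_assoc]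
  rw [hDe] at hD h
  have hD0 : 0 < D := by
    by_contra hcon
    have : ε * D ≤ 0 := mul_nonpos_of_nonneg_of_nonpos hε.le (not_lt.1 hcon)
    linarith
  have hX : m ^ n ≠ 0 := by positivity
  obtain ⟨len, hlen⟩ : ∃ len, len = (Nat.digits q (m ^ n)).length := ⟨_, rfl⟩
  have hlen1 : (q : ℝ) ^ len ≤ q * (m : ℝ) ^ n := by
    have := Nat.base_pow_length_digits_le q (m ^ n) (by omega) hX
    rw [← hlen] at this
    exact_mod_cast this
  have hlen2 : ((m ^ n : ℕ) : ℝ) < (q : ℝ) ^ len := by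
    have := Nat.lt_base_pow_length_digits (b := q) (m := m ^ n) (by omega)
    rw [← hlen] at this
    exact_mod_cast this
  have hm0 : (0 : ℝ) < m := by exact_mod_cast hm
  have hlenD : |(len : ℝ) - D| ≤ 1 := by
    have h1 : (len : ℝ) * Real.log q ≤ Real.log q + n * Real.log m := by
      have h2 := Real.log_le_log (by positivity) hlen1
      rw [Real.log_pow, Real.log_mul hq0.ne' (by positivity), Real.log_pow] at h2
      exact h2
    have h2 : n * Real.log m ≤ (len : ℝ) * Real.log q := by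
      have h2 := Real.log_le_log (by positivity) hlen2.le
      rw [Real.log_pow] at h2
      push_cast at h2
      rw [Real.log_pow] at h2
      exact h2
    have h3 : n * Real.log m = D * Real.log q := by
      rw [← hDe, div_mul_cancel₀ _ hlq.ne']
    rw [h3] at h1 h2
    have h4 : (len : ℝ) ≤ D + 1 := by
      have : (len : ℝ) * Real.log q ≤ (D + 1) * Real.log q := by linarith
      exact le_of_mul_le_mul_right this hlq
    have h5 : D ≤ len := le_of_mul_le_mul_right h2 hlq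
    rw [abs_le]
    constructor <;> linarith
  have hword : ∀ l c u v : ℕ, 1 ≤ l → c < q ^ l → u ≤ v → v + l ≤ len + 1 →
      |(((Ico u v).filter fun i => m ^ n / q ^ i % q ^ l = c).card : ℝ) -
        ((v : ℝ) - u) / (q : ℝ) ^ l| ≤ ε * D := by
    intro l c u v hl hc huv hvl
    have hql : (0 : ℝ) < (q : ℝ) ^ l := by positivity
    have h1 := h (u + l - 1) (v + l - 1) (by omega) (by
      refine le_trans ?_ hlen1
      exact pow_le_pow_right₀ hq1.le (by omega)) ((c : ℝ) / (q : ℝ) ^ l) (((c : ℝ) + 1) / (q : ℝ) ^ l)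
      (by positivity) (by gcongr; linarith) (by
        rw [div_le_one hql]
        exact_mod_cast hc)
    have h2 : ((Ico u v).filter fun i => m ^ n / q ^ i % q ^ l = c).card =
        ((Ioc (u + l - 1) (v + l - 1)).filter fun i =>
          (c : ℝ) / (q : ℝ) ^ l ≤ Int.fract ((m : ℝ) ^ n / (q : ℝ) ^ i) ∧
          Int.fract ((m : ℝ) ^ n / (q : ℝ) ^ i) < ((c : ℝ) + 1) / (q : ℝ) ^ l).card := by
      have h3 : Ioc (u + l - 1) (v + l - 1) = (Ico u v).map (addRightEmbedding l) := by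
        rw [map_add_right_Ico]
        ext i
        rw [mem_Ioc, mem_Ico]
        omega
      rw [h3, filter_map, card_map]
      congr 1
      apply filter_congr
      intro i _
      simp only [Function.comp, addRightEmbedding_apply]
      rw [word_iff q (m ^ n) i l c (by omega)]
      push_cast
      exact Iff.rfl
    rw [h2]
    have h3 : ((v + l - 1 : ℕ) : ℝ) - ((u + l - 1 : ℕ) : ℝ) = (v : ℝ) - u := by
      rw [Nat.cast_sub (by omega), Nat.cast_sub (by omega)]
      push_cast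
      ring
    rw [h3] at h1
    have h4 : ((c : ℝ) + 1) / (q : ℝ) ^ l - (c : ℝ) / (q : ℝ) ^ l = 1 / (q : ℝ) ^ l := by ring
    rw [h4, mul_one_div] at h1
    exact h1
  refine ⟨?_, ?_, ?_⟩
  · intro b hb
    rw [← hDd]
    have h1 := hword 1 b 0 len le_rfl (by rw [pow_one]; exact hb) (Nat.zero_le _) (by omega)
    rw [Nat.cast_zero, sub_zero, pow_one] at h1
    have h2 : (Nat.digits q (m ^ n)).count b =
        ((Ico 0 len).filter fun i => m ^ n / q ^ i % q ^ 1 = b).card := by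
      rw [count_digits q (m ^ n) b hq, ← hlen, range_eq_Ico]
      simp only [pow_one]
    simp only [pow_one] at h1 h2
    rw [← h2] at h1
    obtain ⟨c, hc⟩ : ∃ c : ℝ, c = ((Nat.digits q (m ^ n)).count b : ℝ) := ⟨_, rfl⟩
    rw [← hc] at h1 ⊢
    have h3 : |c - D / q| ≤ 2 * ε * D := by
      have h4 : c - D / q = (c - len / q) + ((len : ℝ) - D) / q := by ring
      rw [h4]
      refine (abs_add_le _ _).trans ?_
      have h5 : |((len : ℝ) - D) / q| ≤ 1 := by
        rw [abs_div, abs_of_pos hq0, div_le_one hq0]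
        linarith
      linarith
    have h4 : c / D - 1 / q = (c - D / q) / D := by field_simp
    rw [h4, abs_div, abs_of_pos hD0, div_le_iff₀ hD0]
    exact h3
  · intro l c u v hl hc huv hvl
    rw [← hlen] at hvl
    rw [← hDd]
    have h1 := hword l c u v hl hc huv hvl
    have h2 : ε * D ≤ 2 * ε * D := by nlinarith
    linarith
  · intro u v huv hv p r hp hpr hr
    rw [← hlen] at hv
    rw [← hDd]
    have h1 := h u v huv ((pow_le_pow_right₀ hq1.le hv).trans hlen1) p r hp hpr hr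
    have h2 : ε * D ≤ 2 * ε * D := by nlinarith
    linarith

/-- `m` is good: the digits of `m ^ n` in base `q` are well distributed for all `n` and `q` up to
the bounds `(log m) ^ γ` and `exp ((log m) ^ γ)` -/
def Good (γ ε : ℝ) (m : ℕ) : Prop :=
  ∀ n q : ℕ, 1 ≤ n → (n : ℝ) ≤ (Real.log m) ^ γ → 2 ≤ q → Real.log q ≤ (Real.log m) ^ γ →
    WellDistributed ε q m n

/-- one dyadic interval -/
theorem dyadic : ∃ γ : ℝ, 0 < γ ∧ ∀ ε : ℝ, 0 < ε → ∃ N₀ : ℕ, ∀ N : ℕ, N₀ ≤ N → ∃ T : Finset ℕ,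
    (T.card : ℝ) ≤ N * Real.exp (-√(Real.log N)) ∧
      ∀ m : ℕ, N < m → m ≤ 2 * N → m ∉ T → Good γ ε m := by
  obtain ⟨γ, hγ0, hγ1, hwin⟩ := win
  refine ⟨γ / 2, by positivity, ?_⟩
  intro ε hε
  obtain ⟨N₁, hN₁⟩ := hwin (min (ε / 2) 1) (lt_min (by positivity) one_pos) (min_le_right _ _)
  have hlog : Tendsto (fun N : ℕ => Real.log N) atTop atTop :=
    Real.tendsto_log_atTop.comp tendsto_natCast_atTop_atTop
  obtain ⟨N₀, hN₀⟩ := eventually_atTop.1 ((hlog.eventually (eventually_ge_atTop 20)).and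
    (eventually_ge_atTop (max N₁ 2)))
  refine ⟨N₀, ?_⟩
  intro N hN
  obtain ⟨q11, q12⟩ := hN₀ N hN
  obtain ⟨T, hTc, hT⟩ := hN₁ N ((le_max_left _ _).trans q12)
  have hN2 : 2 ≤ N := (le_max_right _ _).trans q12
  refine ⟨T.image (fun n => N + n), ?_, ?_⟩
  · refine le_trans ?_ hTc
    exact_mod_cast card_image_le
  · intro m hm1 hm2 hmT n q hn1 hn2 hq1 hq2
    obtain ⟨t, rfl⟩ : ∃ t, m = N + t := ⟨m - N, by omega⟩
    have htT : t ∉ T := by
      intro h
      exact hmT (mem_image.2 ⟨t, h, rfl⟩)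
    have hN0 : (0 : ℝ) < N := by exact_mod_cast (by omega : 0 < N)
    have hlogm : Real.log ((N + t : ℕ) : ℝ) ≤ (Real.log N) ^ 2 := by
      have h1 : Real.log ((N + t : ℕ) : ℝ) ≤ Real.log (N * 2) := by
        apply Real.log_le_log
        · exact_mod_cast (by omega : 0 < N + t)
        · exact_mod_cast (by omega : N + t ≤ N * 2)
      rw [Real.log_mul hN0.ne' (by norm_num)] at h1
      have := Real.log_two_lt_d9
      nlinarith
    have hlogm0 : 0 ≤ Real.log ((N + t : ℕ) : ℝ) := Real.log_nonneg (by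
      exact_mod_cast (by omega : 1 ≤ N + t))
    have hpow : (Real.log ((N + t : ℕ) : ℝ)) ^ (γ / 2) ≤ (Real.log N) ^ γ := by
      calc (Real.log ((N + t : ℕ) : ℝ)) ^ (γ / 2) ≤ ((Real.log N) ^ 2) ^ (γ / 2) :=
            Real.rpow_le_rpow hlogm0 hlogm (by positivity)
        _ = (Real.log N) ^ γ := by
            rw [← Real.rpow_natCast, ← Real.rpow_mul (by linarith)]
            congr 1
            push_cast
            ring
    obtain ⟨h1, h2⟩ := hT t (by rw [mem_Ioc]; omega) htT n q hn1 (hn2.trans hpow) hq1 (hq2.trans hpow)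
    have h3 := well_of (min (ε / 2) 1) q (N + t) n hq1 (by omega) (lt_min (by positivity) one_pos) h1 h2
    have h4 : 2 * min (ε / 2) 1 ≤ ε := by
      have := min_le_left (ε / 2) 1
      linarith
    have h5 : 0 ≤ (n : ℝ) * Real.logb q ((N + t : ℕ) : ℝ) := by
      apply mul_nonneg (Nat.cast_nonneg _)
      apply Real.logb_nonneg
      · exact_mod_cast (by omega : 1 < q)
      · exact_mod_cast (by omega : 1 ≤ N + t)
    have h6 := mul_le_mul_of_nonneg_right h4 h5
    refine ⟨fun b hb => (h3.digit b hb).trans h4, fun l c u v a1 a2 a3 a4 =>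
      (h3.word l c u v a1 a2 a3 a4).trans h6, fun u v a1 a2 p r a3 a4 a5 =>
      (h3.interval u v a1 a2 p r a3 a4 a5).trans h6⟩

open Classical in
/-- all `m ≤ x` -/
theorem all_m : ∃ γ : ℝ, 0 < γ ∧ ∀ ε : ℝ, 0 < ε → ∃ x₀ : ℕ, ∀ x : ℕ, x₀ ≤ x →
    (((Icc 1 x).filter fun m => ¬ Good γ ε m).card : ℝ) ≤ x * Real.exp (-(√(Real.log x) / 2)) := by
  obtain ⟨γ, hγ0, hdy⟩ := dyadic
  refine ⟨γ, hγ0, ?_⟩
  intro ε hε
  obtain ⟨N₀, hN₀⟩ := hdy ε hε
  -- eventual inequalities
  have hlog : Tendsto (fun N : ℕ => Real.log N) atTop atTop :=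
    Real.tendsto_log_atTop.comp tendsto_natCast_atTop_atTop
  have hev : ∀ᶠ x : ℕ in atTop, (6400 ≤ Real.log x) ∧ N₀ ^ 4 + 4 ≤ x :=
    (hlog.eventually (eventually_ge_atTop 6400)).and (eventually_ge_atTop _)
  obtain ⟨x₀, hx₀⟩ := eventually_atTop.1 hev
  refine ⟨x₀, ?_⟩
  intro x hx
  obtain ⟨hy1, hxN⟩ := hx₀ x hx
  obtain ⟨y, hy⟩ : ∃ y : ℝ, y = Real.log x := ⟨_, rfl⟩
  rw [← hy] at hy1 ⊢
  have hx4 : 4 ≤ x := by omega
  have hx0 : (0 : ℝ) < x := by exact_mod_cast (by omega : 0 < x)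
  obtain ⟨J, hJ⟩ : ∃ J, J = Nat.log 2 x := ⟨_, rfl⟩
  have hJ1 : 2 ^ J ≤ x := by rw [hJ]; exact Nat.pow_log_le_self 2 (by omega)
  have hJ2 : x < 2 ^ (J + 1) := by rw [hJ]; exact Nat.lt_pow_succ_log_self (by norm_num) x
  obtain ⟨I, hI⟩ : ∃ I, I = J / 2 := ⟨_, rfl⟩
  have hI2 : 2 * I ≤ J := by omega
  have hI3 : J ≤ 2 * I + 1 := by omega
  have hJ3 : 2 ≤ J := by
    by_contra hcon
    have : 2 ^ (J + 1) ≤ 2 ^ 2 := Nat.pow_le_pow_right (by norm_num) (by omega)
    omega
  have hI1 : 1 ≤ I := by omega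
  have hNI : N₀ ≤ 2 ^ I := by
    by_contra hcon
    rw [not_le] at hcon
    have h1 : (2 ^ I) ^ 4 ≤ N₀ ^ 4 := Nat.pow_le_pow_left hcon.le 4
    have h2 : 2 ^ (J + 1) ≤ (2 ^ I) ^ 4 := by
      rw [← pow_mul]
      exact Nat.pow_le_pow_right (by norm_num) (by omega)
    omega
  -- the sets
  choose! T hTc hT using hN₀
  have hsub : (Icc 1 x).filter (fun m => ¬ Good γ ε m) ⊆
      Icc 1 (2 ^ I) ∪ (Ico I (J + 1)).biUnion fun j => T (2 ^ j) := by
    intro m hm
    rw [mem_filter, mem_Icc] at hm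
    rw [mem_union, mem_Icc, mem_biUnion]
    by_cases hmI : m ≤ 2 ^ I
    · exact Or.inl ⟨hm.1.1, hmI⟩
    · right
      rw [not_le] at hmI
      have hI0 : 0 < 2 ^ I := by positivity
      refine ⟨Nat.log 2 (m - 1), ?_, ?_⟩
      · rw [mem_Ico]
        constructor
        · exact (Nat.le_log_iff_pow_le (by norm_num) (by omega)).2 (by omega)
        · apply Nat.log_lt_of_lt_pow (by omega)
          omega
      · by_contra hcon
        have h1 : 2 ^ (Nat.log 2 (m - 1)) ≤ m - 1 := Nat.pow_log_le_self 2 (by omega)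
        have h2 : m - 1 < 2 ^ (Nat.log 2 (m - 1) + 1) := Nat.lt_pow_succ_log_self (by norm_num) _
        have h3 : I ≤ Nat.log 2 (m - 1) := (Nat.le_log_iff_pow_le (by norm_num) (by omega)).2 (by omega)
        refine hm.2 (hT (2 ^ (Nat.log 2 (m - 1))) ?_ m ?_ ?_ hcon)
        · exact hNI.trans (Nat.pow_le_pow_right (by norm_num) h3)
        · omega
        · rw [pow_succ] at h2; omega
  have hcard : (((Icc 1 x).filter fun m => ¬ Good γ ε m).card : ℝ) ≤
      2 ^ I + ∑ j ∈ Ico I (J + 1), ((T (2 ^ j)).card : ℝ) := by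
    have h1 := (card_le_card hsub).trans ((card_union_le _ _).trans
      (add_le_add le_rfl card_biUnion_le))
    rw [Nat.card_Icc, Nat.add_sub_cancel] at h1
    exact_mod_cast h1
  obtain ⟨t, ht⟩ : ∃ t : ℝ, t = Real.exp (-√(Real.log ((2 ^ I : ℕ) : ℝ))) := ⟨_, rfl⟩
  have ht0 : 0 < t := by rw [ht]; exact Real.exp_pos _
  have hsum : ∑ j ∈ Ico I (J + 1), ((T (2 ^ j)).card : ℝ) ≤ 2 * x * t := by
    have h1 : ∀ j ∈ Ico I (J + 1), ((T (2 ^ j)).card : ℝ) ≤ 2 ^ j * t := by
      intro j hj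
      rw [mem_Ico] at hj
      have h2 := hTc (2 ^ j) (hNI.trans (Nat.pow_le_pow_right (by norm_num) hj.1))
      refine h2.trans ?_
      push_cast
      apply mul_le_mul_of_nonneg_left _ (by positivity)
      rw [ht]
      apply Real.exp_le_exp.2
      apply neg_le_neg
      apply Real.sqrt_le_sqrt
      apply Real.log_le_log (by positivity)
      push_cast
      exact pow_le_pow_right₀ (by norm_num) hj.1
    refine (sum_le_sum h1).trans ?_
    rw [← sum_mul]
    apply mul_le_mul_of_nonneg_right _ ht0.le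
    have h2 : ∑ j ∈ Ico I (J + 1), (2 : ℝ) ^ j ≤ ∑ j ∈ range (J + 1), (2 : ℝ) ^ j := by
      apply sum_le_sum_of_subset_of_nonneg
      · intro j hj
        rw [mem_Ico] at hj
        rw [mem_range]; omega
      · intro j _ _; positivity
    have h3 : ∑ j ∈ range (J + 1), (2 : ℝ) ^ j = 2 ^ (J + 1) - 1 := by
      rw [geom_sum_eq (by norm_num)]; norm_num
    have h4 : (2 : ℝ) ^ (J + 1) ≤ 2 * x := by
      have : ((2 ^ J : ℕ) : ℝ) ≤ x := by exact_mod_cast hJ1
      push_cast at this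
      rw [pow_succ]; linarith
    linarith
  -- the sizes
  have hlogx : y ≤ (J + 1) * Real.log 2 := by
    rw [hy]
    have h1 : Real.log x ≤ Real.log ((2 ^ (J + 1) : ℕ) : ℝ) := by
      apply Real.log_le_log hx0
      exact_mod_cast hJ2.le
    push_cast at h1
    rw [Real.log_pow] at h1
    push_cast at h1
    exact h1
  have hl2 := Real.log_two_lt_d9
  have hl2' := Real.log_two_gt_d9
  have hlogI : 9 / 20 * y ≤ Real.log ((2 ^ I : ℕ) : ℝ) := by
    push_cast
    rw [Real.log_pow]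
    have h1 : (J : ℝ) ≤ 2 * I + 1 := by exact_mod_cast hI3
    have h2 : (J + 1 : ℝ) * Real.log 2 ≤ (2 * I + 2) * Real.log 2 := by
      apply mul_le_mul_of_nonneg_right (by linarith) (by linarith)
    linarith
  have hs : 0 ≤ √y := Real.sqrt_nonneg _
  have hss : √y * √y = y := Real.mul_self_sqrt (by linarith)
  have hs80 : 80 ≤ √y := by
    rw [show (80 : ℝ) = √6400 by rw [show (6400 : ℝ) = 80 ^ 2 by norm_num, Real.sqrt_sq (by norm_num)]]
    exact Real.sqrt_le_sqrt hy1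
  have hsqrtI : 3 / 5 * √y ≤ √(Real.log ((2 ^ I : ℕ) : ℝ)) := by
    apply Real.le_sqrt_of_sq_le
    refine le_trans ?_ hlogI
    have : (3 / 5 * √y) ^ 2 = 9 / 25 * y := by rw [mul_pow, sq (√y), hss]; norm_num
    rw [this]
    linarith
  have ht1 : t ≤ Real.exp (-(√y / 2)) * (1 / 4) := by
    have h1 : t ≤ Real.exp (-(√y / 2)) * Real.exp (-8) := by
      rw [ht, ← Real.exp_add]
      apply Real.exp_le_exp.2
      linarith
    refine h1.trans ?_
    apply mul_le_mul_of_nonneg_left _ (Real.exp_pos _).le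
    rw [Real.exp_neg, inv_eq_one_div]
    apply one_div_le_one_div_of_le (by norm_num)
    have := Real.add_one_le_exp (8 : ℝ)
    linarith
  have h2I : (2 : ℝ) ^ I ≤ x * (Real.exp (-(√y / 2)) * (1 / 4)) := by
    have h1 : ((2 : ℝ) ^ I) * (2 : ℝ) ^ I ≤ x := by
      rw [← pow_add]
      have h2 : 2 ^ (I + I) ≤ x := (Nat.pow_le_pow_right (by norm_num) (by omega)).trans hJ1
      exact_mod_cast h2
    have h3 : (4 : ℝ) * Real.exp (√y / 2) ≤ (2 : ℝ) ^ I := by
      have h4 : Real.exp (9 / 20 * y) ≤ (2 : ℝ) ^ I := by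
        have h5 := Real.exp_le_exp.2 hlogI
        rw [Real.exp_log (by positivity)] at h5
        push_cast at h5
        exact h5
      refine le_trans ?_ h4
      have h5 : (4 : ℝ) ≤ Real.exp 3 := by
        have := Real.add_one_le_exp (3 : ℝ)
        linarith
      calc (4 : ℝ) * Real.exp (√y / 2) ≤ Real.exp 3 * Real.exp (√y / 2) := by gcongr
        _ = Real.exp (3 + √y / 2) := by rw [← Real.exp_add]
        _ ≤ Real.exp (9 / 20 * y) := by
            apply Real.exp_le_exp.2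
            nlinarith
    have h4 : (1 : ℝ) ≤ (2 : ℝ) ^ I * (Real.exp (-(√y / 2)) * (1 / 4)) := by
      have h5 : Real.exp (√y / 2) * Real.exp (-(√y / 2)) = 1 := by
        rw [← Real.exp_add, add_neg_cancel, Real.exp_zero]
      calc (1 : ℝ) = (4 * Real.exp (√y / 2)) * (Real.exp (-(√y / 2)) * (1 / 4)) := by
            linear_combination -h5
        _ ≤ (2 : ℝ) ^ I * (Real.exp (-(√y / 2)) * (1 / 4)) := by
            apply mul_le_mul_of_nonneg_right h3
            positivity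
    calc (2 : ℝ) ^ I = (2 : ℝ) ^ I * 1 := (mul_one _).symm
      _ ≤ (2 : ℝ) ^ I * ((2 : ℝ) ^ I * (Real.exp (-(√y / 2)) * (1 / 4))) := by gcongr
      _ = ((2 : ℝ) ^ I * (2 : ℝ) ^ I) * (Real.exp (-(√y / 2)) * (1 / 4)) := by ring
      _ ≤ x * (Real.exp (-(√y / 2)) * (1 / 4)) := by
          apply mul_le_mul_of_nonneg_right h1
          positivity
  calc (((Icc 1 x).filter fun m => ¬ Good γ ε m).card : ℝ) ≤ 2 ^ I + 2 * x * t := by linarith
    _ ≤ x * (Real.exp (-(√y / 2)) * (1 / 4)) + 2 * x * (Real.exp (-(√y / 2)) * (1 / 4)) := by gcongr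
    _ = 3 / 4 * (x * Real.exp (-(√y / 2))) := by ring
    _ ≤ x * Real.exp (-(√y / 2)) := by
        have : 0 ≤ (x : ℝ) * Real.exp (-(√y / 2)) := by positivity
        linarith

open Classical in
/-- all primes `p ≤ x` -/
theorem all_p : ∃ γ : ℝ, 0 < γ ∧ ∀ ε : ℝ, 0 < ε → ∃ x₀ : ℕ, ∀ x : ℕ, x₀ ≤ x →
    (((Icc 1 x).filter fun m => ¬ Good γ ε m).card : ℝ) ≤ x * Real.exp (-(√(Real.log x) / 2)) ∧
    (((Icc 1 x).filter fun p => p.Prime ∧ ¬ Good γ ε p).card : ℝ) ≤
      Nat.primeCounting x * Real.exp (-(√(Real.log x) / 3)) := by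
  obtain ⟨γ, hγ0, hall⟩ := all_m
  refine ⟨γ, hγ0, ?_⟩
  intro ε hε
  obtain ⟨x₁, hx₁⟩ := hall ε hε
  have hlog : Tendsto (fun N : ℕ => Real.log N) atTop atTop :=
    Real.tendsto_log_atTop.comp tendsto_natCast_atTop_atTop
  have ev1 : ∀ᶠ y : ℝ in atTop, 4 * y ≤ Real.exp (√y / 6) := by
    have t1 := Real.tendsto_pow_mul_exp_neg_atTop_nhds_zero 2
    have t2 := t1.comp ((Real.tendsto_sqrt_atTop).atTop_div_const (by norm_num : (0 : ℝ) < 6))
    have t3 := t2.eventually (ge_mem_nhds (show (0 : ℝ) < 1 / 144 by norm_num))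
    filter_upwards [t3, eventually_ge_atTop 1] with y hy hy1
    have hy0 : 0 < y := by linarith
    simp only [Function.comp] at hy
    have f1 : (√y / 6) ^ 2 = y / 36 := by rw [div_pow, Real.sq_sqrt hy0.le]; norm_num
    rw [f1, Real.exp_neg, ← div_eq_mul_inv, div_le_div_iff₀ (Real.exp_pos _) (by norm_num)] at hy
    linarith
  obtain ⟨x₀, hx₀⟩ := eventually_atTop.1 (((hlog.eventually ev1).and
    (hlog.eventually (eventually_ge_atTop 1))).and (eventually_ge_atTop (max x₁ 16)))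
  refine ⟨x₀, ?_⟩
  intro x hx
  obtain ⟨⟨h1, h2⟩, h3⟩ := hx₀ x hx
  have h4 := hx₁ x ((le_max_left _ _).trans h3)
  refine ⟨h4, ?_⟩
  have hx16 : 16 ≤ x := (le_max_right _ _).trans h3
  have hx0 : (0 : ℝ) < x := by exact_mod_cast (by omega : 0 < x)
  have h5 : (((Icc 1 x).filter fun p => p.Prime ∧ ¬ Good γ ε p).card : ℝ) ≤
      (((Icc 1 x).filter fun m => ¬ Good γ ε m).card : ℝ) := by
    have : ((Icc 1 x).filter fun p => p.Prime ∧ ¬ Good γ ε p) ⊆ (Icc 1 x).filter fun m => ¬ Good γ ε m := by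
      intro p hp
      rw [mem_filter] at hp ⊢
      exact ⟨hp.1, hp.2.2⟩
    exact_mod_cast card_le_card this
  refine h5.trans (h4.trans ?_)
  have hpi := Chebyshev.pi_ge x
  have hpi2 : (x : ℝ) ≤ 4 * Real.log x * Nat.primeCounting x := by
    rw [div_le_iff₀ (by linarith)] at hpi
    have h6 : Real.log (x + 1) ≤ x / 4 := by
      have h7 : Real.log ((x : ℝ) + 1) ≤ Real.log (16 * ((x + 1) / 16)) := by
        apply le_of_eq; congr 1; ring
      rw [Real.log_mul (by norm_num) (by positivity)] at h7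
      have h8 := Real.log_le_sub_one_of_pos (show (0 : ℝ) < (x + 1) / 16 by positivity)
      have h9 : Real.log 16 = 4 * Real.log 2 := by
        rw [show (16 : ℝ) = 2 ^ 4 by norm_num, Real.log_pow]; norm_num
      have h10 := Real.log_two_lt_d9
      have h11 : (16 : ℝ) ≤ x := by exact_mod_cast hx16
      linarith
    have h7 := Real.log_two_gt_d9
    nlinarith
  obtain ⟨E, hE⟩ : ∃ E : ℝ, E = Real.exp (√(Real.log x) / 6) := ⟨_, rfl⟩
  rw [← hE] at h1
  have hE0 : 0 < E := by rw [hE]; exact Real.exp_pos _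
  have hE2 : Real.exp (-(√(Real.log x) / 3)) = 1 / E ^ 2 := by
    have e1 : E ^ 2 = Real.exp (√(Real.log x) / 3) := by
      rw [hE, ← Real.exp_nat_mul]; congr 1; push_cast; ring
    rw [e1, Real.exp_neg]
    exact (one_div _).symm
  have hE3 : Real.exp (-(√(Real.log x) / 2)) = 1 / E ^ 3 := by
    have e1 : E ^ 3 = Real.exp (√(Real.log x) / 2) := by
      rw [hE, ← Real.exp_nat_mul]; congr 1; push_cast; ring
    rw [e1, Real.exp_neg]
    exact (one_div _).symm
  rw [hE2, hE3]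
  have hpi0 : (0 : ℝ) ≤ Nat.primeCounting x := Nat.cast_nonneg _
  obtain ⟨P, hP⟩ : ∃ P : ℝ, P = Nat.primeCounting x := ⟨_, rfl⟩
  rw [← hP] at hpi2 hpi0 ⊢
  calc (x : ℝ) * (1 / E ^ 3) ≤ (4 * Real.log x * P) * (1 / E ^ 3) := by gcongr
    _ ≤ (E * P) * (1 / E ^ 3) := by gcongr
    _ = P * (1 / E ^ 2) := by field_simp

end Pool.Agent.Helper478.Pow
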