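import Pool.Agent.Helper153.FacC
import Pool.Agent.H469R2.NK.KL

/-!
# Exponential sums with a monomial phase of small size: the second derivative test
-/

set_option autoImplicit false

namespace Pool.Agent.Helper478.Pow

open Finset
open Pool.Agent.H469R2.NK (e)
open Pool.Agent.Helper153.Vdc (ee dd Cond cond_diff kusmin_landau triv_bound vdc_ineq' sum_inv_le
  sq_to_lin)

/-- the second derivative test with an explicit constant (the proof is that of
`Pool.Agent.Helper153.Vdc.vdc_base`) -/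
theorem sec (A : ℝ) (hA : 1 ≤ A) (η : ℝ) (hη : 0 < η) (hη1 : η < 1) (N M : ℕ) (g : ℕ → ℝ) (lam : ℝ)
    (hN : 1 ≤ N) (hMN : M ≤ N) (hc : Cond 2 g M lam A) (hl1 : (N : ℝ) ^ (-2 + η) ≤ lam)
    (hl2 : lam ≤ (N : ℝ) ^ (-η)) :
    ‖∑ n ∈ range M, ee (g n)‖ ≤
      (2 + 8 * (1 + 2 / η) + 8 * A + 32 * A * (1 + 2 / η)) * (N : ℝ) ^ (1 - η / 4) := by
  set B : ℝ := 1 + 2 / η with hB
  have hB1 : 1 ≤ B := by rw [hB]; have : 0 < 2 / η := by positivity
                         linarith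
  set K : ℝ := 2 + 8 * B + 8 * A + 32 * A * B with hK
  have hK1 : 1 ≤ K := by rw [hK]; nlinarith
  have hK2 : 2 * A ≤ K := by rw [hK]; nlinarith
  have hN1 : (1 : ℝ) ≤ N := by exact_mod_cast hN
  have hN0 : (0 : ℝ) < N := by linarith
  have hlam : 0 < lam := lt_of_lt_of_le (Real.rpow_pos_of_pos hN0 _) hl1
  by_cases hsmall : (N : ℝ) ^ η < 2 * A
  · -- trivial bound
    have h1 : (M : ℝ) ≤ N := by exact_mod_cast hMN
    have h2 : (N : ℝ) ^ (η / 4) ≤ (N : ℝ) ^ η :=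
      Real.rpow_le_rpow_of_exponent_le hN1 (by linarith)
    have h3 : (N : ℝ) = (N : ℝ) ^ (η / 4) * (N : ℝ) ^ (1 - η / 4) := by
      rw [← Real.rpow_add hN0]; simp
    have h4 : 0 ≤ (N : ℝ) ^ (1 - η / 4) := by positivity
    calc ‖∑ n ∈ range M, ee (g n)‖ ≤ M := triv_bound M g
      _ ≤ N := h1
      _ = (N : ℝ) ^ (η / 4) * (N : ℝ) ^ (1 - η / 4) := h3
      _ ≤ K * (N : ℝ) ^ (1 - η / 4) := mul_le_mul_of_nonneg_right (by linarith) h4
  push Not at hsmall
  -- A lam ≤ 1/2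
  have hAl : 2 * A * lam ≤ 1 := by
    have h1 : (N : ℝ) ^ (-η) = 1 / (N : ℝ) ^ η := by rw [Real.rpow_neg hN0.le]; ring
    have h2 : 0 < (N : ℝ) ^ η := by positivity
    calc 2 * A * lam ≤ (N : ℝ) ^ η * (N : ℝ) ^ (-η) :=
          mul_le_mul hsmall hl2 hlam.le h2.le
      _ = 1 := by rw [h1]; field_simp
  have hAl0 : 0 < 2 * A * lam := by positivity
  set q := 1 / (2 * A * lam) with hq
  have hq1 : 1 ≤ q := by rw [hq, le_div_iff₀ hAl0]; linarith
  set H := min N ⌊q⌋₊ with hH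
  have hH1 : 1 ≤ H := le_min hN (Nat.floor_pos.2 hq1)
  have hHN : H ≤ N := min_le_left _ _
  have hH0 : (0 : ℝ) < H := by exact_mod_cast hH1
  have hHq : (H : ℝ) ≤ q := by
    have h1 : (H : ℝ) ≤ (⌊q⌋₊ : ℝ) := by exact_mod_cast min_le_right _ _
    exact h1.trans (Nat.floor_le (by linarith))
  have hHinv : 1 / (H : ℝ) ≤ 1 / N + 4 * A * lam := by
    rcases le_total N ⌊q⌋₊ with h | h
    · have : H = N := min_eq_left h
      rw [this]
      have : 0 < 4 * A * lam := by positivity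
      linarith
    · have hHf : H = ⌊q⌋₊ := min_eq_right h
      have h1 : q < (⌊q⌋₊ : ℝ) + 1 := Nat.lt_floor_add_one q
      have h2 : (1 : ℝ) ≤ ⌊q⌋₊ := by exact_mod_cast Nat.floor_pos.2 hq1
      have h3 : q ≤ 2 * H := by rw [hHf]; linarith
      have h4 : 1 / (H : ℝ) ≤ 2 / q := by
        rw [div_le_div_iff₀ hH0 (by linarith)]; linarith
      have h5 : 2 / q = 4 * A * lam := by rw [hq]; field_simp; ring
      have h6 : 0 < 1 / (N : ℝ) := by positivity
      linarith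
  -- bounds of the differenced sums
  have hSh : ∀ h ∈ Ico 1 H, ‖∑ n ∈ range (M - h), ee ((fun n => g (n + h) - g n) n)‖ ≤
      2 / lam * (1 / (h : ℝ)) := by
    intro h hh
    rw [mem_Ico] at hh
    have hch := cond_diff (k := 1) hc hh.1
    have hh0 : (0 : ℝ) < h := by exact_mod_cast hh.1
    have hhH : (h : ℝ) ≤ H := by exact_mod_cast hh.2.le
    have hle : A * (h * lam) ≤ 1 / 2 := by
      have h1 : (h : ℝ) * (2 * A * lam) ≤ 1 := by
        have h2 : (h : ℝ) ≤ q := hhH.trans hHq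
        rw [hq, le_div_iff₀ hAl0] at h2
        exact h2
      linarith
    have hθ : (h : ℝ) * lam ≤ 1 / 2 := by
      have : 0 < (h : ℝ) * lam := by positivity
      nlinarith
    have hkl := kusmin_landau (M - h) (fun n => g (n + h) - g n) (h * lam) (by positivity) hθ
      (fun n hn => by
        have := hch.1 n hn
        simp only [dd] at this
        exact ⟨this.1, this.2.trans hle⟩)
      (fun n hn => by
        have := hch.2 n hn
        simp only [dd] at this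
        linarith)
    refine hkl.trans (le_of_eq ?_)
    field_simp
  have hsum : ∑ h ∈ Ico 1 H, ‖∑ n ∈ range (M - h), ee ((fun n => g (n + h) - g n) n)‖ ≤
      2 / lam * (1 + Real.log N) := by
    refine (Finset.sum_le_sum hSh).trans ?_
    rw [← Finset.mul_sum]
    exact mul_le_mul_of_nonneg_left (sum_inv_le hHN) (by positivity)
  -- logs and powers
  have hlog : 1 + Real.log N ≤ B * (N : ℝ) ^ (η / 2) := by
    have h1 := Real.log_le_rpow_div hN0.le (show 0 < η / 2 by positivity)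
    have h2 : (1 : ℝ) ≤ (N : ℝ) ^ (η / 2) := Real.one_le_rpow hN1 (by positivity)
    have h3 : (N : ℝ) ^ (η / 2) / (η / 2) = 2 / η * (N : ℝ) ^ (η / 2) := by field_simp
    rw [h3] at h1
    rw [hB, add_mul, one_mul]
    linarith
  set L := 1 + Real.log N with hL
  have hL0 : 0 ≤ L := by
    rw [hL]; have := Real.log_nonneg hN1; linarith
  have hlinv : 1 / lam ≤ (N : ℝ) ^ (2 - η) := by
    rw [div_le_iff₀ hlam]
    have h1 : (N : ℝ) ^ (2 - η) * (N : ℝ) ^ (-2 + η) = 1 := by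
      rw [← Real.rpow_add hN0]; simp
    rw [← h1]
    exact mul_le_mul_of_nonneg_left hl1 (by positivity)
  set P := (N : ℝ) ^ (2 - η / 2) with hP
  have hP0 : 0 < P := by positivity
  have p1 : (N : ℝ) ≤ P := by
    have := Real.rpow_le_rpow_of_exponent_le hN1 (show (1 : ℝ) ≤ 2 - η / 2 by linarith)
    rwa [Real.rpow_one] at this
  have p2 : L / lam ≤ B * P := by
    have e : (N : ℝ) ^ (η / 2) * (N : ℝ) ^ (2 - η) = P := by
      rw [← Real.rpow_add hN0, hP]; congr 1; ring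
    calc L / lam = L * (1 / lam) := by ring
      _ ≤ (B * (N : ℝ) ^ (η / 2)) * (N : ℝ) ^ (2 - η) :=
          mul_le_mul hlog hlinv (by positivity) (by positivity)
      _ = B * P := by rw [← e]; ring
  have p3 : lam * (N : ℝ) ^ 2 ≤ P := by
    have e : (N : ℝ) ^ (-η) * (N : ℝ) ^ 2 = (N : ℝ) ^ (2 - η) := by
      rw [← Real.rpow_natCast, ← Real.rpow_add hN0]; congr 1; push_cast; ring
    calc lam * (N : ℝ) ^ 2 ≤ (N : ℝ) ^ (-η) * (N : ℝ) ^ 2 :=
          mul_le_mul_of_nonneg_right hl2 (by positivity)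
      _ = (N : ℝ) ^ (2 - η) := e
      _ ≤ P := Real.rpow_le_rpow_of_exponent_le hN1 (by linarith)
  have p4 : N * L ≤ B * P := by
    have e : (N : ℝ) * (N : ℝ) ^ (η / 2) = (N : ℝ) ^ (1 + η / 2) := by
      rw [Real.rpow_add hN0, Real.rpow_one]
    calc N * L ≤ N * (B * (N : ℝ) ^ (η / 2)) := mul_le_mul_of_nonneg_left hlog hN0.le
      _ = B * (N : ℝ) ^ (1 + η / 2) := by rw [← e]; ring
      _ ≤ B * P := mul_le_mul_of_nonneg_left
          (Real.rpow_le_rpow_of_exponent_le hN1 (by linarith)) (by linarith)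
  have hv := vdc_ineq' M N H hMN hH1 hHN g
  set T := ∑ h ∈ Ico 1 H, ‖∑ n ∈ range (M - h), ee ((fun n => g (n + h) - g n) n)‖ with hT
  have hT0 : 0 ≤ T := Finset.sum_nonneg fun _ _ => norm_nonneg _
  have hmain : ‖∑ n ∈ range M, ee (g n)‖ ^ 2 ≤ K * ((N : ℝ) ^ (1 - η / 4)) ^ 2 := by
    have e : ((N : ℝ) ^ (1 - η / 4)) ^ 2 = P := by
      rw [← Real.rpow_natCast, ← Real.rpow_mul hN0.le, hP]; congr 1; push_cast; ring
    rw [e]
    have h1 : 2 * (N : ℝ) / H * ((N : ℝ) + 2 * T) ≤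
        (2 * N * (1 / N + 4 * A * lam)) * (N + 2 * (2 / lam * L)) := by
      have h2 : 2 * (N : ℝ) / H = 2 * N * (1 / H) := by ring
      rw [h2]
      apply mul_le_mul
      · exact mul_le_mul_of_nonneg_left hHinv (by positivity)
      · linarith
      · positivity
      · positivity
    have h3 : (2 * N * (1 / N + 4 * A * lam)) * (N + 2 * (2 / lam * L)) =
        2 * N + 8 * (L / lam) + 8 * A * (lam * (N : ℝ) ^ 2) + 32 * A * (N * L) := by
      field_simp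
      ring
    rw [h3] at h1
    have hA0 : 0 ≤ A := by linarith
    have q1 : 8 * A * (lam * (N : ℝ) ^ 2) ≤ 8 * A * P :=
      mul_le_mul_of_nonneg_left p3 (by positivity)
    have q2 : 32 * A * (N * L) ≤ 32 * A * (B * P) :=
      mul_le_mul_of_nonneg_left p4 (by positivity)
    have : K * P = 2 * P + 8 * (B * P) + 8 * A * P + 32 * A * (B * P) := by rw [hK]; ring
    rw [this]
    linarith
  exact sq_to_lin (norm_nonneg _) hK1 hN0.le hmain

/-- the second differences of the powers -/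
noncomputable def D2 (k : ℕ) (y : ℝ) : ℝ :=
  ∑ i ∈ Ico 2 (k + 1), (k.choose i : ℝ) * (1 + (-1) ^ i) * y ^ (k - i)

lemma D2_eq (k : ℕ) (hk : 2 ≤ k) (y : ℝ) : (y + 1) ^ k - 2 * y ^ k + (y - 1) ^ k = D2 k y := by
  have h1 : (y + 1) ^ k = ∑ i ∈ range (k + 1), (k.choose i : ℝ) * y ^ (k - i) := by
    rw [add_comm, add_pow]
    refine sum_congr rfl fun i _ => ?_
    rw [one_pow]; ring
  have h2 : (y - 1) ^ k = ∑ i ∈ range (k + 1), (k.choose i : ℝ) * (-1) ^ i * y ^ (k - i) := by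
    rw [sub_eq_add_neg, add_comm, add_pow]
    refine sum_congr rfl fun i _ => ?_
    ring
  have h3 : (y + 1) ^ k + (y - 1) ^ k =
      ∑ i ∈ range (k + 1), (k.choose i : ℝ) * (1 + (-1) ^ i) * y ^ (k - i) := by
    rw [h1, h2, ← sum_add_distrib]
    refine sum_congr rfl fun i _ => ?_
    ring
  have h4 : ∑ i ∈ range (k + 1), (k.choose i : ℝ) * (1 + (-1) ^ i) * y ^ (k - i) =
      2 * y ^ k + D2 k y := by
    rw [D2, range_eq_Ico, sum_eq_sum_Ico_succ_bot (by omega), sum_eq_sum_Ico_succ_bot (by omega),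
      ← add_assoc]
    congr 1
    rw [Nat.choose_zero_right, pow_zero, Nat.sub_zero]
    norm_num
  linarith

lemma neg_one_pow_ge (i : ℕ) : (0 : ℝ) ≤ 1 + (-1) ^ i ∧ (1 : ℝ) + (-1) ^ i ≤ 2 := by
  rcases neg_one_pow_eq_or ℝ i with h | h <;> rw [h] <;> norm_num

lemma D2_lower (k : ℕ) (hk : 2 ≤ k) (y : ℝ) (hy : 0 ≤ y) : y ^ (k - 2) ≤ D2 k y := by
  have h1 : (k.choose 2 : ℝ) * (1 + (-1) ^ 2) * y ^ (k - 2) ≤ D2 k y := by
    apply single_le_sum (f := fun i => (k.choose i : ℝ) * (1 + (-1) ^ i) * y ^ (k - i))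
      (fun i _ => mul_nonneg (mul_nonneg (Nat.cast_nonneg _) (neg_one_pow_ge i).1) (pow_nonneg hy _))
    rw [mem_Ico]; omega
  have h2 : (1 : ℝ) ≤ k.choose 2 := by
    have : 1 ≤ k.choose 2 := Nat.choose_pos hk
    exact_mod_cast this
  have h3 : 0 ≤ y ^ (k - 2) := pow_nonneg hy _
  norm_num at h1
  nlinarith

lemma D2_upper (k : ℕ) (y : ℝ) (hy : 1 ≤ y) : D2 k y ≤ 2 ^ (k + 1) * y ^ (k - 2) := by
  have h1 : D2 k y ≤ ∑ i ∈ Ico 2 (k + 1), (k.choose i : ℝ) * (2 * y ^ (k - 2)) := by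
    refine sum_le_sum fun i hi => ?_
    rw [mem_Ico] at hi
    rw [mul_assoc]
    apply mul_le_mul_of_nonneg_left _ (Nat.cast_nonneg _)
    have h2 : y ^ (k - i) ≤ y ^ (k - 2) := pow_le_pow_right₀ hy (by omega)
    exact mul_le_mul (neg_one_pow_ge i).2 h2 (by positivity) (by norm_num)
  refine h1.trans ?_
  rw [← sum_mul]
  have h2 : ∑ i ∈ Ico 2 (k + 1), (k.choose i : ℝ) ≤ 2 ^ k := by
    have h3 : ∑ i ∈ range (k + 1), (k.choose i : ℝ) = 2 ^ k := by
      exact_mod_cast Nat.sum_range_choose k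
    rw [← h3, range_eq_Ico]
    apply sum_le_sum_of_subset_of_nonneg
    · intro i hi
      rw [mem_Ico] at hi ⊢
      omega
    · intro i _ _
      exact Nat.cast_nonneg _
  calc (∑ i ∈ Ico 2 (k + 1), (k.choose i : ℝ)) * (2 * y ^ (k - 2)) ≤ 2 ^ k * (2 * y ^ (k - 2)) := by
        gcongr
    _ = 2 ^ (k + 1) * y ^ (k - 2) := by ring

lemma D2_mono (k : ℕ) (y z : ℝ) (hy : 0 ≤ y) (hyz : y ≤ z) : D2 k y ≤ D2 k z := by
  refine sum_le_sum fun i _ => ?_
  apply mul_le_mul_of_nonneg_left _ (mul_nonneg (Nat.cast_nonneg _) (neg_one_pow_ge i).1)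
  exact pow_le_pow_left₀ hy hyz _

lemma dd2_eq (F : ℝ) (N k n : ℕ) (hk : 2 ≤ k) :
    dd 2 (fun n : ℕ => F * ((N + 1 + n : ℕ) : ℝ) ^ k) n = F * D2 k ((N + 2 + n : ℕ) : ℝ) := by
  rw [← D2_eq k hk]
  simp only [dd]
  push_cast
  ring_nf

/-- the conditions of the second derivative test for monomials -/
lemma cond_mono (F : ℝ) (hF : 0 < F) (N k : ℕ) (hk : 2 ≤ k) (hN : 1 ≤ N) :
    Cond 2 (fun n : ℕ => F * ((N + 1 + n : ℕ) : ℝ) ^ k) N (F * (N : ℝ) ^ (k - 2)) (4 ^ k) := by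
  have hN1 : (1 : ℝ) ≤ N := by exact_mod_cast hN
  constructor
  · intro n hn
    rw [dd2_eq F N k n hk]
    have hy1 : (1 : ℝ) ≤ ((N + 2 + n : ℕ) : ℝ) := by exact_mod_cast (by omega : 1 ≤ N + 2 + n)
    have hyN : (N : ℝ) ≤ ((N + 2 + n : ℕ) : ℝ) := by exact_mod_cast (by omega : N ≤ N + 2 + n)
    have hyN2 : ((N + 2 + n : ℕ) : ℝ) ≤ 2 * N := by exact_mod_cast (by omega : N + 2 + n ≤ 2 * N)
    constructor
    · apply mul_le_mul_of_nonneg_left _ hF.le
      refine le_trans ?_ (D2_lower k hk _ (by linarith))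
      exact pow_le_pow_left₀ (by linarith) hyN _
    · have h1 : D2 k ((N + 2 + n : ℕ) : ℝ) ≤ 2 ^ (k + 1) * (2 * N) ^ (k - 2) := by
        refine (D2_upper k _ hy1).trans ?_
        gcongr
      have h2 : (2 : ℝ) ^ (k + 1) * (2 * N) ^ (k - 2) ≤ 4 ^ k * (N : ℝ) ^ (k - 2) := by
        rw [mul_pow, ← mul_assoc, ← pow_add]
        apply mul_le_mul_of_nonneg_right _ (by positivity)
        rw [show (4 : ℝ) = 2 ^ 2 by norm_num, ← pow_mul]
        exact pow_le_pow_right₀ (by norm_num) (by omega)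
      calc F * D2 k ((N + 2 + n : ℕ) : ℝ) ≤ F * (4 ^ k * (N : ℝ) ^ (k - 2)) := by
            apply mul_le_mul_of_nonneg_left (h1.trans h2) hF.le
        _ = 4 ^ k * (F * (N : ℝ) ^ (k - 2)) := by ring
  · intro n hn
    have h1 : dd (2 + 1) (fun n : ℕ => F * ((N + 1 + n : ℕ) : ℝ) ^ k) n =
        dd 2 (fun n : ℕ => F * ((N + 1 + n : ℕ) : ℝ) ^ k) (n + 1) -
        dd 2 (fun n : ℕ => F * ((N + 1 + n : ℕ) : ℝ) ^ k) n := by
      simp only [dd]
    rw [h1, dd2_eq F N k _ hk, dd2_eq F N k _ hk, ← mul_sub]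
    apply mul_nonneg hF.le
    rw [sub_nonneg]
    apply D2_mono _ _ _ (Nat.cast_nonneg _)
    exact_mod_cast (by omega : N + 2 + n ≤ N + 2 + (n + 1))

lemma ee_eq (x : ℝ) : ee x = e x := by
  unfold Pool.Agent.Helper153.Vdc.ee Pool.Agent.H469R2.NK.e
  congr 1
  push_cast
  ring

/-- monomials of small size -/
theorem mono_small (η : ℝ) (hη : 0 < η) (hη1 : η < 1) (N k : ℕ) (hN : 1 ≤ N) (hk : 2 ≤ k) (F : ℝ)
    (h1 : (N : ℝ) ^ η ≤ F * (N : ℝ) ^ k) (h2 : F * (N : ℝ) ^ k ≤ (N : ℝ) ^ (2 - η)) :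
    ‖∑ n ∈ Ioc 0 N, e (F * ((N + n : ℕ) : ℝ) ^ k)‖ ≤
      (50 * (1 + 2 / η) * 4 ^ k) * (N : ℝ) ^ (1 - η / 4) := by
  have hN1 : (1 : ℝ) ≤ N := by exact_mod_cast hN
  have hN0 : (0 : ℝ) < N := by linarith
  have hF : 0 < F := by
    have h3 : 0 < F * (N : ℝ) ^ k := lt_of_lt_of_le (Real.rpow_pos_of_pos hN0 _) h1
    exact pos_of_mul_pos_left h3 (by positivity)
  have hsplit : (N : ℝ) ^ k = (N : ℝ) ^ (k - 2) * (N : ℝ) ^ 2 := by
    rw [← pow_add]; congr 1; omega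
  have h4 : (1 : ℝ) ≤ 4 ^ k := one_le_pow₀ (by norm_num)
  have hs := sec (4 ^ k) h4 η hη hη1 N N (fun n : ℕ => F * ((N + 1 + n : ℕ) : ℝ) ^ k)
    (F * (N : ℝ) ^ (k - 2)) hN le_rfl (cond_mono F hF N k hk hN) (by
      rw [hsplit] at h1
      have h5 : (N : ℝ) ^ (-2 + η) * (N : ℝ) ^ 2 = (N : ℝ) ^ η := by
        rw [← Real.rpow_natCast, ← Real.rpow_add hN0]; congr 1; push_cast; ring
      rw [← h5, ← mul_assoc] at h1
      exact le_of_mul_le_mul_right h1 (by positivity)) (by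
      rw [hsplit] at h2
      have h5 : (N : ℝ) ^ (-η) * (N : ℝ) ^ 2 = (N : ℝ) ^ (2 - η) := by
        rw [← Real.rpow_natCast, ← Real.rpow_add hN0]; congr 1; push_cast; ring
      rw [← h5, ← mul_assoc] at h2
      exact le_of_mul_le_mul_right h2 (by positivity))
  have heq : ∑ n ∈ range N, ee (F * ((N + 1 + n : ℕ) : ℝ) ^ k) =
      ∑ n ∈ Ioc 0 N, e (F * ((N + n : ℕ) : ℝ) ^ k) := by
    rw [show Ioc 0 N = Ico 1 (N + 1) from rfl, sum_Ico_eq_sum_range]
    refine sum_congr (by congr 1) fun n _ => ?_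
    rw [ee_eq, show N + (1 + n) = N + 1 + n by omega]
  rw [heq] at hs
  refine hs.trans ?_
  apply mul_le_mul_of_nonneg_right _ (by positivity)
  have hB : 1 ≤ 1 + 2 / η := by
    have : 0 < 2 / η := by positivity
    linarith
  set B : ℝ := 1 + 2 / η with hBdef
  obtain ⟨X, hX⟩ : ∃ X : ℝ, X = 4 ^ k := ⟨_, rfl⟩
  rw [← hX] at h4 ⊢
  have h6 : 1 ≤ B * X := by nlinarith
  have h7 : B ≤ B * X := by nlinarith
  have h8 : X ≤ B * X := by nlinarith
  nlinarith

end Pool.Agent.Helper478.Pow
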